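import Pool.Agent.W5h65.MD.D3
import Pool.Agent.W215.QP.Fe
import Pool.Agent.H855R2.SF.Dir

set_option autoImplicit false

/-!
# The `L`-functions of positive fundamental discriminants: continuation, functional equation, growth
-/

namespace Pool.Agent.W5h55.MC

open Finset Filter Topology Complex Pool.Agent.W5h65.MD
open Pool.Agent.H306R2.RG (FD F8 F4 F1 Fam cf jo)

theorem kr_odd_level {d : ℕ} (hd : d % 4 = 1) {n : ℕ} (hn : n ≠ 0) :
    ((kr d n : ℤ) : ℝ) = (if d % 8 = 1 then (1 : ℝ) else -1) ^ (n.factorization 2) *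
      ((jacobiSym (d : ℤ) (n / 2 ^ n.factorization 2) : ℤ) : ℝ) := by
  have hodd : Odd d := by rw [Nat.odd_iff]; omega
  set v := n.factorization 2 with hv
  set m := n / 2 ^ v with hm
  have hn' : n = 2 ^ v * m := (Nat.ordProj_mul_ordCompl_eq_self n 2).symm
  have hmo : Odd m := by
    rw [← Nat.not_even_iff_odd, even_iff_two_dvd]
    exact Nat.not_dvd_ordCompl Nat.prime_two hn
  have h1 : kr d n = jacobiSym (n : ℤ) d := by
    unfold kr
    rw [if_pos hodd]
  rw [h1]
  have h2 : (n : ℤ) = (2 : ℤ) ^ v * (m : ℤ) := by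
    rw [hn']
    push_cast
    ring_nf
  rw [h2, jacobiSym.mul_left, jacobiSym.pow_left, jacobiSym.at_two hodd,
    ZMod.χ₈_nat_eq_if_mod_eight]
  have h3 : jacobiSym (m : ℤ) d = jacobiSym (d : ℤ) m :=
    (jacobiSym.quadratic_reciprocity_one_mod_four hd hmo).symm
  rw [h3]
  have h4 : ¬ d % 2 = 0 := by omega
  rw [if_neg h4]
  by_cases h5 : d % 8 = 1
  · rw [if_pos (Or.inl h5), if_pos h5]
    push_cast
    ring
  · have h6 : ¬ (d % 8 = 1 ∨ d % 8 = 7) := by omega
    rw [if_neg h6, if_neg h5]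
    push_cast
    ring

theorem kr_four {m : ℕ} {n : ℕ} (hn : Odd n) : kr (4 * m) n = jacobiSym (m : ℤ) n := by
  unfold kr
  have h1 : ¬ Odd (4 * m) := by
    rw [Nat.not_odd_iff_even]
    exact ⟨2 * m, by ring⟩
  rw [if_neg h1, if_pos hn]
  push_cast
  have h2 : ((4 : ℤ) * (m : ℤ)) = 2 * (2 * (m : ℤ)) := by ring
  rw [h2, jacobiSym.mul_left, jacobiSym.mul_left, ← mul_assoc]
  have h3 : jacobiSym 2 n * jacobiSym 2 n = 1 := by
    have := js_two_sq hn
    rw [sq] at this
    exact this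
  rw [h3, one_mul]

theorem exists_char {d : ℕ} (hd : IsFund d) (h1 : 1 < d) :
    ∃ (_ : NeZero d) (χ : DirichletCharacter ℂ d), χ.IsPrimitive ∧ χ ^ 2 = 1 ∧ χ ≠ 1 ∧ χ.Even ∧
      ∀ n : ℕ, n ≠ 0 → χ (n : ZMod d) = ((kr d n : ℤ) : ℂ) := by
  have key : ∃ (φ : FD) (d' : ℕ), Fam φ ∧ φ.A d' ∧ Squarefree d' ∧ d = φ.r * d' ∧ φ.a = 0 ∧
      ∀ n : ℕ, n ≠ 0 → cf φ d' n = ((kr d n : ℤ) : ℝ) := by
    rcases (fund_iff d).1 hd with ⟨ho, hs, h4⟩ | ⟨κ, rfl, ho, hs, h4⟩ | ⟨κ, rfl, ho, hs⟩
    · have hns : ¬ IsSquare ((1 : ℤ) * (d : ℤ)) := by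
        rw [one_mul]
        rintro ⟨r, hr⟩
        have h5 : d = r.natAbs * r.natAbs := by
          have := congrArg Int.natAbs hr
          rw [Int.natAbs_natCast, Int.natAbs_mul] at this
          exact this
        have h6 : IsUnit r.natAbs := hs r.natAbs (by rw [h5])
        rw [Nat.isUnit_iff] at h6
        rw [h6] at h5
        omega
      rcases (by omega : d % 8 = 1 ∨ d % 8 = 5) with h8 | h8
      · refine ⟨F1 1 1, d, ⟨1, Or.inl rfl, Or.inr (Or.inr (Or.inl rfl))⟩, ⟨by simp; omega, hns⟩, hs,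
          by simp [F1], by simp [F1], fun n hn => ?_⟩
        rw [kr_odd_level h4 hn, if_pos h8]
        have hodd : Odd (n / 2 ^ n.factorization 2) := by
          rw [← Nat.not_even_iff_odd, even_iff_two_dvd]
          exact Nat.not_dvd_ordCompl Nat.prime_two hn
        simp only [cf, jo, F1, if_pos hodd, Pool.Agent.H306R2.RZ.js]
        simp
      · refine ⟨F1 1 5, d, ⟨1, Or.inl rfl, Or.inr (Or.inr (Or.inr rfl))⟩, ⟨by simp; omega, hns⟩, hs,
          by simp [F1], by simp [F1], fun n hn => ?_⟩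
        rw [kr_odd_level h4 hn, if_neg (by omega)]
        have hodd : Odd (n / 2 ^ n.factorization 2) := by
          rw [← Nat.not_even_iff_odd, even_iff_two_dvd]
          exact Nat.not_dvd_ordCompl Nat.prime_two hn
        simp only [cf, jo, F1, if_pos hodd, Pool.Agent.H306R2.RZ.js]
        norm_num
    · refine ⟨F4 1, κ, ⟨1, Or.inl rfl, Or.inr (Or.inl rfl)⟩, by simp [F4]; omega, hs,
          by simp [F4], by simp [F4], fun n hn => ?_⟩
      rcases Nat.even_or_odd n with he | hodd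
      · have h5 : kr (4 * κ) n = 0 := by
          unfold kr
          rw [if_neg (by rw [Nat.not_odd_iff_even]; exact ⟨2 * κ, by ring⟩),
            if_neg (by rwa [Nat.not_odd_iff_even])]
        have h6 : n.factorization 2 ≠ 0 := by
          have := (Nat.prime_two.dvd_iff_one_le_factorization hn).1 he.two_dvd
          omega
        rw [h5]
        simp [cf, F4, h6]
      · have h6 : n.factorization 2 = 0 := by
          apply Nat.factorization_eq_zero_of_not_dvd
          rw [← even_iff_two_dvd, Nat.not_even_iff_odd]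
          exact hodd
        rw [kr_four hodd]
        simp [cf, jo, F4, h6, hodd, Pool.Agent.H306R2.RZ.js]
    · refine ⟨F8 1, κ, ⟨1, Or.inl rfl, Or.inl rfl⟩, by simp only [F8]; exact ho, hs,
          by simp [F8], by simp [F8], fun n hn => ?_⟩
      rcases Nat.even_or_odd n with he | hodd
      · have h5 : kr (8 * κ) n = 0 := by
          unfold kr
          rw [if_neg (by rw [Nat.not_odd_iff_even]; exact ⟨4 * κ, by ring⟩),
            if_neg (by rwa [Nat.not_odd_iff_even])]
        have h6 : n.factorization 2 ≠ 0 := by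
          have := (Nat.prime_two.dvd_iff_one_le_factorization hn).1 he.two_dvd
          omega
        rw [h5]
        simp [cf, F8, h6]
      · have h6 : n.factorization 2 = 0 := by
          apply Nat.factorization_eq_zero_of_not_dvd
          rw [← even_iff_two_dvd, Nat.not_even_iff_odd]
          exact hodd
        have h7 : 8 * κ = 4 * (2 * κ) := by ring
        rw [h7, kr_four hodd]
        simp [cf, jo, F8, h6, hodd, Pool.Agent.H306R2.RZ.js]
  obtain ⟨φ, d', hφ, hA, hs, hdr, ha, hcf⟩ := key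
  obtain ⟨h0, χ, h2, h3, h4, h5, h6⟩ := Pool.Agent.H306R2.RG.LnkC.CC1 φ hφ d' hA hs
  subst hdr
  refine ⟨⟨by omega⟩, χ, h2, h3, h4, ?_, fun n hn => ?_⟩
  · rw [if_pos ha] at h6
    exact h6
  · rw [h5 n hn, hcf n hn]
    push_cast
    rfl

end Pool.Agent.W5h55.MC
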