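import Pool.Agent.W5h55.MC.Main

set_option autoImplicit false
set_option linter.unusedSectionVars false

/-!
# The largest domain in terms of the fibres
-/

namespace Pool.Agent.W5h55.MC

open Finset Filter Topology Complex MeasureTheory Pool.Agent.W5h65.MD Pool.Agent.W5h55.BT

variable {k : ℕ}

/-- The point of the fibre over `σ + i t` with first coordinate `w`. -/
noncomputable def fp (σ t : Fin k → ℝ) (w : ℂ) : Fin (k + 1) → ℂ :=
  Fin.cons w (fun j => (σ j : ℂ) + t j * I)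

/-- Almost all the fibres over `σ + i t` continue beyond `c`, with polynomial bounds. -/
def Fib (Λ : ℕ → ℂ → ℂ) (M : ℕ) (σ : Fin k → ℝ) (c : ℝ) : Prop :=
  ∃ δ > 0, ∃ (C : ℝ) (N : ℕ) (f : (Fin k → ℝ) → ℂ → ℂ), ∀ᵐ t : Fin k → ℝ,
    DifferentiableOn ℂ (f t) {w | c - δ < w.re} ∧
    (∀ w : ℂ, (k : ℝ) + 1 < w.re → f t w = FX Λ M (fp σ t w)) ∧
    ∀ w : ℂ, c - δ < w.re → ‖f t w‖ ≤ C * (1 + ‖t‖ + ‖w‖) ^ N

theorem fp_zero (σ t : Fin k → ℝ) (w : ℂ) : fp σ t w 0 = w := by simp [fp]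

theorem fp_succ (σ t : Fin k → ℝ) (w : ℂ) (j : Fin k) : fp σ t w j.succ = (σ j : ℂ) + t j * I := by
  simp [fp]

theorem re'_fp (σ t : Fin k → ℝ) (w : ℂ) : re' (fp σ t w) = Fin.cons w.re σ := by
  funext i
  refine Fin.cases ?_ (fun i => ?_) i
  · show (fp σ t w 0).re = _
    rw [fp_zero, Fin.cons_zero]
  · show (fp σ t w i.succ).re = _
    rw [fp_succ, Fin.cons_succ]
    simp

theorem norm_im'_fp (σ t : Fin k → ℝ) (w : ℂ) : ‖im' (fp σ t w)‖ ≤ ‖t‖ + ‖w‖ := by
  refine (pi_norm_le_iff_of_nonneg (by positivity)).2 fun i => ?_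
  rw [Real.norm_eq_abs]
  refine Fin.cases ?_ (fun i => ?_) i
  · show |(fp σ t w 0).im| ≤ _
    rw [fp_zero]
    have := Complex.abs_im_le_norm w
    have := norm_nonneg t
    linarith
  · show |(fp σ t w i.succ).im| ≤ _
    rw [fp_succ]
    have e : ((σ i : ℂ) + t i * I).im = t i := by simp
    rw [e]
    have h1 := norm_le_pi_norm t i
    rw [Real.norm_eq_abs] at h1
    have := norm_nonneg w
    linarith

theorem norm_fp (σ t : Fin k → ℝ) (w : ℂ) : ‖fp σ t w‖ ≤ ‖σ‖ + ‖t‖ + ‖w‖ := by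
  refine (pi_norm_le_iff_of_nonneg (by positivity)).2 fun i => ?_
  refine Fin.cases ?_ (fun i => ?_) i
  · rw [fp_zero]
    have := norm_nonneg t
    have := norm_nonneg σ
    linarith
  · rw [fp_succ]
    have h1 := norm_le_pi_norm t i
    have h2 := norm_le_pi_norm σ i
    have h3 : ‖(σ i : ℂ) + t i * I‖ ≤ ‖σ i‖ + ‖t i‖ := by
      refine (norm_add_le _ _).trans ?_
      rw [norm_mul, Complex.norm_I, mul_one, Complex.norm_real, Complex.norm_real]
    have := norm_nonneg w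
    linarith

theorem differentiable_fp (σ t : Fin k → ℝ) : Differentiable ℂ (fp σ t) := by
  refine differentiable_pi.2 fun i => ?_
  refine Fin.cases ?_ (fun i => ?_) i
  · simp only [fp_zero]
    exact differentiable_id
  · simp only [fp_succ]
    exact differentiable_const _

/-- A uniform bound far to the right. -/
theorem FX_right {Λ : ℕ → ℂ → ℂ} (hΛ : IsCont Λ) (M : ℕ) {σ : Fin k → ℝ} (hσ : ∀ j, 0 < σ j) :
    ∃ (C : ℝ) (N : ℕ), 0 ≤ C ∧ ∀ (t : Fin k → ℝ) (w : ℂ), (k : ℝ) + 2 ≤ w.re →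
      ‖FX Λ M (fp σ t w)‖ ≤ C * (1 + ‖t‖ + ‖w‖) ^ N := by
  obtain ⟨δ, hδ, h1⟩ := exists_gap (fun _ => (0 : ℝ)) σ hσ
  set B : ℝ := 2 * (‖σ‖ + 1) / δ with hB
  have hB0 : 0 ≤ B := by positivity
  set S : ℝ := ∑' d : ℕ, (d : ℝ) ^ (-(2 : ℝ)) with hS
  have hS0 : 0 ≤ S := tsum_nonneg fun _ => by positivity
  refine ⟨B ^ k * S * (((k : ℝ) + 3) * (1 + ‖σ‖)) ^ (2 ^ k), k + 2 ^ k, by positivity,
    fun t w hw => ?_⟩
  have ht0 := norm_nonneg t
  have hw0 := norm_nonneg w
  have hσ0 := norm_nonneg σ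
  have h2 : ∀ d : ℕ, ‖tm Λ M (fp σ t w) d‖ ≤ (d : ℝ) ^ (-(2 : ℝ)) * (B ^ k * (1 + ‖t‖) ^ k) := by
    intro d
    rcases Nat.lt_or_ge d 1 with hd0 | hd0
    · have : tm Λ M (fp σ t w) d = 0 := by
        classical
        unfold tm
        rw [if_neg (fun h => by omega)]
      rw [this, norm_zero]
      positivity
    have hd0' : (1 : ℝ) ≤ d := by exact_mod_cast hd0
    have h3 := tm_norm_le (Λ := Λ) (M := M) (d := d) (z := fp σ t w) (a := (k : ℝ) + 2)
      (B := B * d * (1 + ‖t‖)) (by rwa [fp_zero]) (fun j hd1 hd2 => ?_) (by positivity)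
    · refine h3.trans (le_of_eq ?_)
      rw [mul_pow, mul_pow]
      have h4 : (d : ℝ) ^ (-((k : ℝ) + 2)) * (d : ℝ) ^ k = (d : ℝ) ^ (-(2 : ℝ)) := by
        rw [← Real.rpow_natCast, ← Real.rpow_add (by linarith)]
        congr 1
        ring
      rw [← h4]
      ring
    · have hre : (fp σ t w j.succ).re = σ j := by
        rw [fp_succ]
        simp
      have hσj : δ < σ j := by
        have := h1 j
        linarith
      refine ((hΛ.prop hd1 hd2).1 _ (by rw [hre]; exact hσ j)).trans ?_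
      rw [hre]
      have h5 : ‖fp σ t w j.succ‖ ≤ (‖σ‖ + 1) * (1 + ‖t‖) := by
        rw [fp_succ]
        have h6 := norm_le_pi_norm t j
        have h7 := norm_le_pi_norm σ j
        have h8 : ‖(σ j : ℂ) + t j * I‖ ≤ ‖σ j‖ + ‖t j‖ := by
          refine (norm_add_le _ _).trans ?_
          rw [norm_mul, Complex.norm_I, mul_one, Complex.norm_real, Complex.norm_real]
        nlinarith [mul_nonneg hσ0 ht0]
      have h6 : ((d : ℝ) + 1) / σ j ≤ 2 * d / δ :=
        div_le_div₀ (by positivity) (by linarith) hδ hσj.le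
      calc ‖fp σ t w j.succ‖ * (((d : ℝ) + 1) / σ j)
          ≤ ((‖σ‖ + 1) * (1 + ‖t‖)) * (2 * d / δ) := by
            refine mul_le_mul h5 h6 ?_ (by positivity)
            have := (hσ j).le
            positivity
        _ = B * d * (1 + ‖t‖) := by
            rw [hB]
            ring
  have h3 : ‖∑' d, tm Λ M (fp σ t w) d‖ ≤ S * (B ^ k * (1 + ‖t‖) ^ k) := by
    rw [hS, ← tsum_mul_right]
    exact tsum_of_norm_bounded ((summ_rpow (by norm_num)).mul_right _).hasSum h2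
  have h4 : ‖PP (fp σ t w)‖ ≤ (((k : ℝ) + 3) * (1 + ‖σ‖)) ^ (2 ^ k) *
      (1 + ‖t‖ + ‖w‖) ^ (2 ^ k) := by
    refine (PP_norm _).trans ?_
    rw [mul_pow, mul_assoc]
    refine mul_le_mul_of_nonneg_left ?_ (by positivity)
    rw [← mul_pow]
    refine pow_le_pow_left₀ (by positivity) ?_ _
    have := norm_fp σ t w
    nlinarith [mul_nonneg hσ0 ht0, mul_nonneg hσ0 hw0]
  have h5 : (1 + ‖t‖) ^ k ≤ (1 + ‖t‖ + ‖w‖) ^ k :=
    pow_le_pow_left₀ (by positivity) (by linarith) _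
  unfold FX
  rw [norm_mul]
  calc ‖∑' d, tm Λ M (fp σ t w) d‖ * ‖PP (fp σ t w)‖
      ≤ (S * (B ^ k * (1 + ‖t‖ + ‖w‖) ^ k)) * ((((k : ℝ) + 3) * (1 + ‖σ‖)) ^ (2 ^ k) *
        (1 + ‖t‖ + ‖w‖) ^ (2 ^ k)) := by
        refine mul_le_mul (h3.trans ?_) h4 (norm_nonneg _) (by positivity)
        gcongr
    _ = _ := by
        rw [pow_add]
        ring

theorem Base.fib_iff {Λ : ℕ → ℂ → ℂ} (hΛ : IsCont Λ) {M : ℕ} {D : Set (Fin (k + 1) → ℝ)}
    {G : (Fin (k + 1) → ℂ) → ℂ}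
    {g : EuclideanSpace ℝ (Fin (k + 1)) → EuclideanSpace ℝ (Fin (k + 1)) → ℂ}
    (hB : Base Λ M D G g) {σ : Fin k → ℝ} (hσ : ∀ j, 0 < σ j) (c : ℝ) :
    (Fin.cons c σ : Fin (k + 1) → ℝ) ∈ D ↔ Fib Λ M σ c := by
  have hW : ∀ c', (k : ℝ) + 1 < c' → (Fin.cons c' σ : Fin (k + 1) → ℝ) ∈ W1 k := by
    intro c' hc'
    exact ⟨fun j => by simpa using hσ j, by simpa using hc'⟩
  have hup : ∀ c1 c2 : ℝ, c1 ≤ c2 → (Fin.cons c1 σ : Fin (k + 1) → ℝ) ∈ D →
      (Fin.cons c2 σ : Fin (k + 1) → ℝ) ∈ D := by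
    intro c1 c2 h12 h
    refine hB.up_mem h fun i => ?_
    refine Fin.cases ?_ (fun i => ?_) i
    · simpa using h12
    · simp
  constructor
  · intro hc
    have hcont : Continuous (fun x : ℝ => (Fin.cons x σ : Fin (k + 1) → ℝ)) := by
      refine continuous_pi fun i => ?_
      refine Fin.cases ?_ (fun i => ?_) i
      · simp only [Fin.cons_zero]
        exact continuous_id
      · simp only [Fin.cons_succ]
        exact continuous_const
    obtain ⟨ε, hε, hball⟩ := Metric.isOpen_iff.1 (hB.lar.isOpen.preimage hcont) c hc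
    set δ : ℝ := ε / 2 with hδ
    have hδ0 : 0 < δ := by positivity
    have hcδ : (Fin.cons (c - δ) σ : Fin (k + 1) → ℝ) ∈ D := by
      refine hball (show c - δ ∈ Metric.ball c ε from ?_)
      rw [Metric.mem_ball, Real.dist_eq]
      have : c - δ - c = -δ := by ring
      rw [this, abs_neg, abs_of_pos hδ0]
      linarith
    have hmem : ∀ (t : Fin k → ℝ) (w : ℂ), c - δ < w.re → fp σ t w ∈ Tube D := by
      intro t w hw
      rw [mem_Tube, re'_fp]
      exact hup _ _ hw.le hcδ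
    have hK : IsCompact ((fun x : ℝ => (Fin.cons x σ : Fin (k + 1) → ℝ)) ''
        Set.Icc (c - δ) ((k : ℝ) + 2)) := isCompact_Icc.image hcont
    obtain ⟨C1, N1, h1⟩ := hB.lar.poly _ hK (by
      rintro _ ⟨x, hx, rfl⟩
      exact hup _ _ hx.1 hcδ)
    obtain ⟨C2, N2, hC2, h2⟩ := FX_right hΛ M hσ
    refine ⟨δ, hδ0, |C1| + C2, max N1 N2, fun t w => G (fp σ t w), ae_of_all _ fun t =>
      ⟨fun w hw => ?_, fun w hw => ?_, fun w hw => ?_⟩⟩
    · refine DifferentiableAt.differentiableWithinAt ?_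
      exact DifferentiableAt.comp (g := G) (f := fp σ t) w
        (diffAt hB.lar.isOpen hB.lar.holo (hmem t w hw)) (differentiable_fp σ t w)
    · refine (hB.eq2 _ ?_).symm
      rw [mem_Tube, re'_fp]
      exact hW _ hw
    · have ht0 := norm_nonneg t
      have hw0 := norm_nonneg w
      have hone : 1 ≤ 1 + ‖t‖ + ‖w‖ := by linarith
      rcases le_total ((k : ℝ) + 2) w.re with hw2 | hw2
      · have e1 : G (fp σ t w) = FX Λ M (fp σ t w) := by
          refine (hB.eq2 _ ?_).symm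
          rw [mem_Tube, re'_fp]
          exact hW _ (by linarith)
        show ‖G (fp σ t w)‖ ≤ _
        rw [e1]
        refine (h2 t w hw2).trans ?_
        refine mul_le_mul ?_ (pow_le_pow_right₀ hone (le_max_right _ _)) (by positivity)
          (by positivity)
        have := abs_nonneg C1
        linarith
      · have h3 : (fun j => (fp σ t w j).re) ∈ (fun x : ℝ => (Fin.cons x σ : Fin (k + 1) → ℝ)) ''
            Set.Icc (c - δ) ((k : ℝ) + 2) := ⟨w.re, ⟨hw.le, hw2⟩, (re'_fp σ t w).symm⟩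
        refine (h1 _ h3).trans ?_
        have h4 : (1 + ‖im' (fp σ t w)‖) ^ N1 ≤ (1 + ‖t‖ + ‖w‖) ^ N1 := by
          refine pow_le_pow_left₀ (by positivity) ?_ _
          linarith [norm_im'_fp σ t w]
        calc C1 * (1 + ‖fun j => (fp σ t w j).im‖) ^ N1
            ≤ |C1| * (1 + ‖im' (fp σ t w)‖) ^ N1 :=
              mul_le_mul_of_nonneg_right (le_abs_self _) (by positivity)
          _ ≤ (|C1| + C2) * (1 + ‖t‖ + ‖w‖) ^ max N1 N2 := by
              refine mul_le_mul (by linarith)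
                (h4.trans (pow_le_pow_right₀ hone (le_max_left _ _))) (by positivity)
                (by positivity)
  · rintro ⟨δ, hδ, C, N, f, hf⟩
    refine fibre_mem hB.lar (c1 := (k : ℝ) + 1) (c0 := c - δ) (fun c' hc' => hB.w1 (hW c' hc')) f
      (C := |C|) (N := N) (abs_nonneg C) ?_ (by linarith)
    filter_upwards [hf] with t ⟨h1, h2, h3⟩
    refine ⟨h1, fun w hw => ?_, fun w hw => (h3 w hw).trans ?_⟩
    · rw [h2 w hw]
      refine hB.eq2 _ ?_
      rw [mem_Tube, re'_fp]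
      exact hW _ hw
    · exact mul_le_mul_of_nonneg_right (le_abs_self C) (by positivity)

end Pool.Agent.W5h55.MC
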