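import Pool.Agent.W5h55.MC.Max

set_option autoImplicit false
set_option linter.unusedSectionVars false

/-!
# Continuation in one variable along the fibres over almost all imaginary parts
-/

namespace Pool.Agent.W5h55.MC

open MeasureTheory Filter Topology Metric Complex Pool.Agent.W5h55.BT

theorem integral_unit (Ψ : ℝ → ℂ) :
    ∫ y : EuclideanSpace ℝ Unit, Ψ (y ()) = ∫ u : ℝ, Ψ u := by
  have h1 := (EuclideanSpace.volume_preserving_symm_measurableEquiv_toLp Unit).trans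
    (volume_preserving_funUnique Unit ℝ)
  have h2 := h1.integral_comp' (g := Ψ)
  exact h2

theorem shift1 {c0 : ℝ} {φ : ℂ → ℂ} (hφ : DifferentiableOn ℂ φ {w | c0 < w.re}) {C : ℝ} {N : ℕ}
    (hb : ∀ w : ℂ, c0 < w.re → ‖φ w‖ ≤ C * (1 + ‖w‖) ^ N) (η ξ : ℝ) {a b : ℝ} (ha : c0 < a)
    (hb' : c0 < b) :
    ∫ u : ℝ, φ (a + u * I) * cexp ((a + u * I - η * I) ^ 2 - 2 * Real.pi * ((a + u * I) * ξ)) =
      ∫ u : ℝ, φ (b + u * I) * cexp ((b + u * I - η * I) ^ 2 - 2 * Real.pi * ((b + u * I) * ξ)) := by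
  set W : Set (Unit → ℝ) := {x | c0 < x ()} with hWdef
  have hW : IsOpen W := isOpen_lt continuous_const (continuous_apply ())
  have hWc : Convex ℝ W := by
    intro x hx y hy s t hs ht hst
    simp only [hWdef, Set.mem_ofPred_eq, Pi.add_apply, Pi.smul_apply, smul_eq_mul] at hx hy ⊢
    have hs' : s = 1 - t := by linarith
    subst hs'
    rcases ht.eq_or_lt with h | h
    · rw [← h]
      linarith
    · nlinarith [mul_le_mul_of_nonneg_left hx.le hs, mul_lt_mul_of_pos_left hy h]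
  set F : (Unit → ℂ) → ℂ := fun z => φ (z ()) with hFdef
  have hF : DifferentiableOn ℂ F (Tube W) := by
    refine hφ.comp (differentiable_apply ()).differentiableOn fun z hz => hz
  have hbF : PolyBd W F := by
    refine polyBd_of_local fun x hx => ⟨{x' | x' () < x () + 1} ∩ W, ?_,
      |C| * (1 + (|c0| + |x ()| + 1)) ^ N, N, fun z hz => ?_⟩
    · refine inter_mem ?_ (hW.mem_nhds hx)
      exact (isOpen_lt (continuous_apply ()) continuous_const).mem_nhds
        (show x () < x () + 1 by linarith)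
    · have h1 : c0 < (z ()).re := hz.2
      have h2 : (z ()).re < x () + 1 := hz.1
      have h3 := hb (z ()) h1
      have h4 : ‖z ()‖ ≤ (|c0| + |x ()| + 1) + ‖fun j => (z j).im‖ := by
        have h5 := Complex.norm_le_abs_re_add_abs_im (z ())
        have h6 : |(z ()).re| ≤ |c0| + |x ()| + 1 := by
          rw [abs_le]
          constructor
          · have := neg_abs_le c0
            have := abs_nonneg (x ())
            linarith
          · have := le_abs_self (x ())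
            have := abs_nonneg c0
            linarith
        have h7 := norm_le_pi_norm (fun j => (z j).im) ()
        rw [Real.norm_eq_abs] at h7
        linarith
      calc ‖F z‖ ≤ C * (1 + ‖z ()‖) ^ N := h3
        _ ≤ |C| * (1 + ‖z ()‖) ^ N := by
            gcongr
            exact le_abs_self C
        _ ≤ |C| * (1 + ((|c0| + |x ()| + 1) + ‖fun j => (z j).im‖)) ^ N := by gcongr
        _ ≤ |C| * ((1 + (|c0| + |x ()| + 1)) ^ N * (1 + ‖fun j => (z j).im‖) ^ N) := by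
            gcongr
            exact one_add_le (by positivity) (norm_nonneg _) N
        _ = _ := by ring
  have key := Lap_const hW hWc.isPreconnected hF hbF (WithLp.toLp 2 (fun _ => η))
    (WithLp.toLp 2 (fun _ => ξ)) (z := R (fun _ => a)) (z' := R (fun _ => b))
    (R_mem (show c0 < a from ha)) (R_mem (show c0 < b from hb'))
  unfold Lap Phi at key
  have e : ∀ c : ℝ, (∫ y : EuclideanSpace ℝ Unit, F (R (fun _ => c) + J y) *
      cexp (q (WithLp.toLp 2 (fun _ => η)) (R (fun _ => c) + J y) -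
        2 * Real.pi * dotc (R (fun _ => c) + J y) (WithLp.toLp 2 (fun _ => ξ)))) =
      ∫ u : ℝ, φ (c + u * I) * cexp ((c + u * I - η * I) ^ 2 - 2 * Real.pi * ((c + u * I) * ξ)) := by
    intro c
    rw [← integral_unit]
    refine integral_congr_ae (Eventually.of_forall fun y => ?_)
    simp [hFdef, q, dotc, R, J]
  rw [e a, e b] at key
  exact key

variable {k : ℕ}

/-- The measurable equivalence `(u, s) ↦ (u, s)` as a vector. -/
noncomputable def Θ : ℝ × (Fin k → ℝ) ≃ᵐ EuclideanSpace ℝ (Fin (k + 1)) :=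
  (MeasurableEquiv.piFinSuccAbove (fun _ => ℝ) 0).symm.trans
    (MeasurableEquiv.toLp 2 (Fin (k + 1) → ℝ))

theorem Θ_apply (p : ℝ × (Fin k → ℝ)) : (Θ p : EuclideanSpace ℝ (Fin (k + 1))) =
    WithLp.toLp 2 (Fin.cons p.1 p.2) := by
  unfold Θ
  simp [MeasurableEquiv.piFinSuccAbove]
  rfl

theorem Θ_mp : MeasurePreserving (Θ (k := k)) :=
  ((volume_preserving_piFinSuccAbove (fun _ : Fin (k + 1) => ℝ) 0).symm).trans
    ((EuclideanSpace.volume_preserving_symm_measurableEquiv_toLp (Fin (k + 1))).symm)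

/-- Polynomials times Gaussians are integrable. -/
theorem integrable_gauss' {V : Type*} [NormedAddCommGroup V] [InnerProductSpace ℝ V]
    [FiniteDimensional ℝ V] [MeasurableSpace V] [BorelSpace V] (N : ℕ) :
    Integrable (fun y : V => (1 + ‖y‖) ^ N * Real.exp (-(‖y‖ ^ 2) / 2)) := by
  have h1 := GaussianFourier.integrable_cexp_neg_mul_sq_norm_add (V := V)
    (b := (1 / 4 : ℂ)) (by norm_num) 0 0
  have h2 : Integrable fun y : V => Real.exp (-(‖y‖ ^ 2) / 4) := by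
    refine h1.norm.congr (Eventually.of_forall fun y => ?_)
    simp only [Complex.norm_exp]
    congr 1
    simp only [zero_mul, add_zero]
    have : (-(1 / 4 : ℂ) * (‖y‖ : ℂ) ^ 2) = ((-(‖y‖ ^ 2) / 4 : ℝ) : ℂ) := by
      push_cast
      ring
    rw [this, Complex.ofReal_re]
  refine Integrable.mono' (h2.const_mul ((N.factorial : ℝ) * Real.exp 2)) ?_
    (Eventually.of_forall fun y => ?_)
  · exact Continuous.aestronglyMeasurable (by fun_prop)
  · have h0 : 0 ≤ ‖y‖ := norm_nonneg y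
    rw [Real.norm_of_nonneg (by positivity)]
    have h3 : (1 + ‖y‖) ^ N ≤ N.factorial * Real.exp (1 + ‖y‖) := by
      have := Real.pow_div_factorial_le_exp (1 + ‖y‖) (by positivity) N
      rwa [div_le_iff₀ (by positivity), mul_comm] at this
    have h4 : Real.exp (1 + ‖y‖) * Real.exp (-(‖y‖ ^ 2) / 2) ≤
        Real.exp 2 * Real.exp (-(‖y‖ ^ 2) / 4) := by
      rw [← Real.exp_add, ← Real.exp_add]
      refine Real.exp_le_exp.2 ?_
      nlinarith [sq_nonneg (‖y‖ - 2)]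
    calc (1 + ‖y‖) ^ N * Real.exp (-(‖y‖ ^ 2) / 2)
        ≤ (N.factorial * Real.exp (1 + ‖y‖)) * Real.exp (-(‖y‖ ^ 2) / 2) := by gcongr
      _ = N.factorial * (Real.exp (1 + ‖y‖) * Real.exp (-(‖y‖ ^ 2) / 2)) := by ring
      _ ≤ N.factorial * (Real.exp 2 * Real.exp (-(‖y‖ ^ 2) / 4)) := by gcongr
      _ = (N.factorial * Real.exp 2) * Real.exp (-(‖y‖ ^ 2) / 4) := by ring

/-- The factor of the integrand in the first variable. -/
noncomputable def e0 (η ξ : ℝ) (w : ℂ) : ℂ :=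
  cexp ((w - η * I) ^ 2 - 2 * Real.pi * (w * ξ))

/-- The factor of the integrand in the other variables. -/
noncomputable def e1 (h ξ : EuclideanSpace ℝ (Fin (k + 1))) (s : Fin k → ℂ) : ℂ :=
  cexp (∑ j : Fin k, ((s j - h j.succ * I) ^ 2 - 2 * Real.pi * (s j * ξ j.succ)))

theorem Phi_cons (F : (Fin (k + 1) → ℂ) → ℂ) (h ξ : EuclideanSpace ℝ (Fin (k + 1))) (w : ℂ)
    (s : Fin k → ℂ) : Phi F h ξ (Fin.cons w s) =
      e1 h ξ s * (F (Fin.cons w s) * e0 (h 0) (ξ 0) w) := by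
  have h1 : q h (Fin.cons w s) - 2 * Real.pi * dotc (Fin.cons w s) ξ =
      ((w - h 0 * I) ^ 2 - 2 * Real.pi * (w * ξ 0)) +
        ∑ j : Fin k, ((s j - h j.succ * I) ^ 2 - 2 * Real.pi * (s j * ξ j.succ)) := by
    unfold q dotc
    rw [Fin.sum_univ_succ, Fin.sum_univ_succ, Finset.sum_sub_distrib, ← Finset.mul_sum]
    simp only [Fin.cons_zero, Fin.cons_succ]
    ring
  unfold Phi e1 e0
  rw [h1, Complex.exp_add]
  ring

theorem norm_e0 (η ξ c u : ℝ) : ‖e0 η ξ (c + ((η + u : ℝ) : ℂ) * I)‖ =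
    Real.exp (c ^ 2 - u ^ 2 - 2 * Real.pi * (c * ξ)) := by
  unfold e0
  rw [Complex.norm_exp]
  congr 1
  have h1 : ((c : ℂ) + ((η + u : ℝ) : ℂ) * I - η * I) ^ 2 -
      2 * Real.pi * ((c + ((η + u : ℝ) : ℂ) * I) * ξ) =
      ((c ^ 2 - u ^ 2 - 2 * Real.pi * (c * ξ) : ℝ) : ℂ) +
        ((2 * c * u - 2 * Real.pi * ((η + u) * ξ) : ℝ) : ℂ) * I := by
    push_cast
    ring_nf
    simp only [I_sq]
    ring
  rw [h1, Complex.add_re, Complex.ofReal_re, Complex.re_ofReal_mul, Complex.I_re, mul_zero, add_zero]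

theorem norm_e1 (h ξ : EuclideanSpace ℝ (Fin (k + 1))) (σ s : Fin k → ℝ) :
    ‖e1 h ξ (fun j => (σ j : ℂ) + ((h j.succ + s j : ℝ) : ℂ) * I)‖ =
      Real.exp (∑ j : Fin k, (σ j ^ 2 - s j ^ 2 - 2 * Real.pi * (σ j * ξ j.succ))) := by
  unfold e1
  rw [Complex.norm_exp, Complex.re_sum]
  congr 1
  refine Finset.sum_congr rfl fun j _ => ?_
  have h1 : ((σ j : ℂ) + ((h j.succ + s j : ℝ) : ℂ) * I - h j.succ * I) ^ 2 -
      2 * Real.pi * (((σ j : ℂ) + ((h j.succ + s j : ℝ) : ℂ) * I) * ξ j.succ) =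
      ((σ j ^ 2 - s j ^ 2 - 2 * Real.pi * (σ j * ξ j.succ) : ℝ) : ℂ) +
        ((2 * σ j * s j - 2 * Real.pi * ((h j.succ + s j) * ξ j.succ) : ℝ) : ℂ) * I := by
    push_cast
    ring_nf
    simp only [I_sq]
    ring
  rw [h1, Complex.add_re, Complex.ofReal_re, Complex.re_ofReal_mul, Complex.I_re, mul_zero, add_zero]

/-- The vectors over which almost all fibres continue are good. -/
theorem fibre_good {D : Set (Fin (k + 1) → ℝ)} {G : (Fin (k + 1) → ℂ) → ℂ}
    {g : EuclideanSpace ℝ (Fin (k + 1)) → EuclideanSpace ℝ (Fin (k + 1)) → ℂ}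
    (hD : Largest D G g) {σ : Fin k → ℝ} {c1 c0 : ℝ}
    (h1 : ∀ c, c1 < c → (Fin.cons c σ : Fin (k + 1) → ℝ) ∈ D)
    (f : (Fin k → ℝ) → ℂ → ℂ) {C : ℝ} {N : ℕ} (hC : 0 ≤ C)
    (hf : ∀ᵐ t : Fin k → ℝ, DifferentiableOn ℂ (f t) {w | c0 < w.re} ∧
      (∀ w : ℂ, c1 < w.re → f t w = G (Fin.cons w (fun j => (σ j : ℂ) + t j * I))) ∧
      (∀ w : ℂ, c0 < w.re → ‖f t w‖ ≤ C * (1 + ‖t‖ + ‖w‖) ^ N)) {c : ℝ} (hc : c0 < c) :
    (Fin.cons c σ : Fin (k + 1) → ℝ) ∈ Good g := by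
  set c2 : ℝ := max c0 c1 + 1 with hc2
  have hc21 : c1 < c2 := by
    have := le_max_right c0 c1
    linarith
  have hc20 : c0 < c2 := by
    have := le_max_left c0 c1
    linarith
  set x2 : Fin (k + 1) → ℝ := Fin.cons c2 σ with hx2def
  have hx2 : x2 ∈ D := h1 c2 hc21
  set T1 : ℝ := ∫ u : ℝ, (1 + ‖u‖) ^ N * Real.exp (-(‖u‖ ^ 2) / 2) with hT1
  have hT10 : 0 ≤ T1 := integral_nonneg fun u => by positivity
  have hint3 : Integrable (fun s : Fin k → ℝ => (1 + ‖(WithLp.toLp 2 s : EuclideanSpace ℝ (Fin k))‖) ^ N *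
      Real.exp (-(‖(WithLp.toLp 2 s : EuclideanSpace ℝ (Fin k))‖ ^ 2) / 2)) :=
    ((PiLp.volume_preserving_toLp (Fin k)).integrable_comp_emb
      (MeasurableEquiv.toLp 2 (Fin k → ℝ)).measurableEmbedding).2
        (integrable_gauss' (V := EuclideanSpace ℝ (Fin k)) N)
  set T2 : ℝ := ∫ s : Fin k → ℝ, (1 + ‖(WithLp.toLp 2 s : EuclideanSpace ℝ (Fin k))‖) ^ N *
      Real.exp (-(‖(WithLp.toLp 2 s : EuclideanSpace ℝ (Fin k))‖ ^ 2) / 2) with hT2
  have hT20 : 0 ≤ T2 := integral_nonneg fun u => by positivity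
  refine ⟨C * (1 + |c|) ^ N * Real.exp (c ^ 2) * T1 * Real.exp (∑ j, σ j ^ 2) * T2, 2 * N,
    by positivity, fun h ξ => ?_⟩
  -- the transform as an iterated integral
  have e1' : g h ξ = ∫ y, Phi G h ξ (R x2 + J h + J y) := by
    rw [← hD.lap x2 hx2 h ξ, ← Lap_add _ h ξ (R x2) h]
    rfl
  have hzm : R x2 + J h ∈ Tube D := add_J_mem (R_mem hx2) h
  have hint : Integrable (fun y => Phi G h ξ (R x2 + J h + J y)) := by
    obtain ⟨r, hr, -, B, hB, hle⟩ := exists_bound hD.isOpen hD.poly h ξ hzm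
    exact Integrable.mono' hB (continuous_Phi hD.holo h ξ hzm).aestronglyMeasurable
      (Eventually.of_forall fun y => hle y _ (mem_ball_self (by positivity)))
  have hpt : ∀ (u : ℝ) (s : Fin k → ℝ), R x2 + J h + J (Θ (u, s)) =
      Fin.cons ((c2 : ℂ) + ((h 0 + u : ℝ) : ℂ) * I)
        (fun j => (σ j : ℂ) + ((h j.succ + s j : ℝ) : ℂ) * I) := by
    intro u s
    rw [Θ_apply]
    funext i
    refine Fin.cases ?_ (fun i => ?_) i
    · simp [R, J, hx2def]
      ring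
    · simp [R, J, hx2def]
      ring
  have e2 : g h ξ = ∫ s : Fin k → ℝ, ∫ u : ℝ, Phi G h ξ (Fin.cons ((c2 : ℂ) + ((h 0 + u : ℝ) : ℂ) * I)
        (fun j => (σ j : ℂ) + ((h j.succ + s j : ℝ) : ℂ) * I)) := by
    rw [e1', ← Θ_mp.integral_comp']
    have hint2 : Integrable (fun p : ℝ × (Fin k → ℝ) => Phi G h ξ (R x2 + J h + J (Θ p)))
        (volume.prod volume) :=
      (Θ_mp.integrable_comp_emb Θ.measurableEmbedding).2 hint
    have h2 := integral_prod_symm (μ := (volume : Measure ℝ))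
      (ν := (volume : Measure (Fin k → ℝ))) _ hint2
    have h3 : (∫ p : ℝ × (Fin k → ℝ), Phi G h ξ (R x2 + J h + J (Θ p))) =
        ∫ p, Phi G h ξ (R x2 + J h + J (Θ p)) ∂((volume : Measure ℝ).prod
          (volume : Measure (Fin k → ℝ))) := rfl
    rw [h3, h2]
    refine integral_congr_ae (Eventually.of_forall fun s => ?_)
    refine integral_congr_ae (Eventually.of_forall fun u => ?_)
    simp only
    rw [hpt]
  -- almost all fibres
  have hae : ∀ᵐ s : Fin k → ℝ, ‖∫ u : ℝ, Phi G h ξ (Fin.cons ((c2 : ℂ) + ((h 0 + u : ℝ) : ℂ) * I)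
        (fun j => (σ j : ℂ) + ((h j.succ + s j : ℝ) : ℂ) * I))‖ ≤
      (C * (1 + |c|) ^ N * Real.exp (c ^ 2) * T1 * Real.exp (∑ j, σ j ^ 2) * (1 + ‖h‖) ^ (2 * N) *
        Real.exp (-(2 * Real.pi * dotr (Fin.cons c σ : Fin (k + 1) → ℝ) ξ))) *
      ((1 + ‖(WithLp.toLp 2 s : EuclideanSpace ℝ (Fin k))‖) ^ N *
      Real.exp (-(‖(WithLp.toLp 2 s : EuclideanSpace ℝ (Fin k))‖ ^ 2) / 2)) := by
    have hq := (measurePreserving_add_left (volume : Measure (Fin k → ℝ))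
      (fun j => h j.succ)).quasiMeasurePreserving.ae hf
    filter_upwards [hq] with s hs
    obtain ⟨hs1, hs2, hs3⟩ := hs
    set t : Fin k → ℝ := (fun j => h j.succ) + s with ht
    have htj : ∀ j, t j = h j.succ + s j := fun j => rfl
    -- reduce to `f t`
    have k1 : (∫ u : ℝ, Phi G h ξ (Fin.cons ((c2 : ℂ) + ((h 0 + u : ℝ) : ℂ) * I)
        (fun j => (σ j : ℂ) + ((h j.succ + s j : ℝ) : ℂ) * I))) =
        e1 h ξ (fun j => (σ j : ℂ) + ((h j.succ + s j : ℝ) : ℂ) * I) *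
          ∫ u : ℝ, f t ((c2 : ℂ) + ((h 0 + u : ℝ) : ℂ) * I) *
            e0 (h 0) (ξ 0) ((c2 : ℂ) + ((h 0 + u : ℝ) : ℂ) * I) := by
      rw [← integral_const_mul]
      refine integral_congr_ae (Eventually.of_forall fun u => ?_)
      simp only
      rw [Phi_cons, hs2 _ (by simpa using hc21)]
      simp only [htj]
    have k2 : ∀ c' : ℝ, (∫ u : ℝ, f t ((c' : ℂ) + ((h 0 + u : ℝ) : ℂ) * I) *
            e0 (h 0) (ξ 0) ((c' : ℂ) + ((h 0 + u : ℝ) : ℂ) * I)) =
        ∫ u : ℝ, f t (c' + u * I) * cexp ((c' + u * I - h 0 * I) ^ 2 -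
          2 * Real.pi * ((c' + u * I) * ξ 0)) := by
      intro c'
      exact integral_add_left_eq_self (fun u : ℝ => f t (c' + u * I) *
        cexp ((c' + u * I - h 0 * I) ^ 2 - 2 * Real.pi * ((c' + u * I) * ξ 0))) (h 0)
    have k3 := shift1 hs1 (C := C * (1 + ‖t‖) ^ N) (N := N) (fun w hw => by
      refine (hs3 w hw).trans ?_
      rw [mul_assoc]
      refine mul_le_mul_of_nonneg_left ?_ hC
      rw [add_assoc]
      exact one_add_le (norm_nonneg _) (norm_nonneg _) N) (h 0) (ξ 0) hc20 hc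
    rw [k1, k2 c2, k3, ← k2 c, norm_mul, norm_e1]
    have k4 : ‖∫ u : ℝ, f t ((c : ℂ) + ((h 0 + u : ℝ) : ℂ) * I) *
            e0 (h 0) (ξ 0) ((c : ℂ) + ((h 0 + u : ℝ) : ℂ) * I)‖ ≤
        (C * (1 + |c|) ^ N * (1 + ‖h‖) ^ (2 * N) *
          (1 + ‖(WithLp.toLp 2 s : EuclideanSpace ℝ (Fin k))‖) ^ N * Real.exp (c ^ 2) *
          Real.exp (-(2 * Real.pi * (c * ξ 0)))) * T1 := by
      rw [hT1, ← integral_const_mul]
      refine norm_integral_le_of_norm_le ((integrable_gauss' (V := ℝ) N).const_mul _)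
        (Eventually.of_forall fun u => ?_)
      rw [norm_mul, norm_e0]
      have m1 := hs3 ((c : ℂ) + ((h 0 + u : ℝ) : ℂ) * I) (by simpa using hc)
      have m2 : ‖t‖ ≤ ‖h‖ + ‖(WithLp.toLp 2 s : EuclideanSpace ℝ (Fin k))‖ := by
        refine (pi_norm_le_iff_of_nonneg (by positivity)).2 fun j => ?_
        rw [htj, Real.norm_eq_abs]
        refine (abs_add_le _ _).trans (add_le_add (PiLp.norm_apply_le h j.succ) ?_)
        exact PiLp.norm_apply_le (WithLp.toLp 2 s : EuclideanSpace ℝ (Fin k)) j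
      have m3 : ‖(c : ℂ) + ((h 0 + u : ℝ) : ℂ) * I‖ ≤ |c| + (‖h‖ + |u|) := by
        refine (norm_add_le _ _).trans (add_le_add (by simp) ?_)
        rw [norm_mul, Complex.norm_I, mul_one, Complex.norm_real, Real.norm_eq_abs]
        exact (abs_add_le _ _).trans (add_le_add (PiLp.norm_apply_le h 0) le_rfl)
      set S : ℝ := ‖(WithLp.toLp 2 s : EuclideanSpace ℝ (Fin k))‖ with hS
      have hS0 : 0 ≤ S := norm_nonneg _
      have hh0 : 0 ≤ ‖h‖ := norm_nonneg h
      have hc0' : 0 ≤ |c| := abs_nonneg c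
      have hu0 : 0 ≤ |u| := abs_nonneg u
      have m4 : (1 + ‖t‖ + ‖(c : ℂ) + ((h 0 + u : ℝ) : ℂ) * I‖) ^ N ≤
          ((1 + |c|) * ((1 + ‖h‖) ^ 2 * ((1 + S) * (1 + |u|)))) ^ N := by
        refine pow_le_pow_left₀ (by positivity) ?_ N
        have n1 : 1 + (|c| + (2 * ‖h‖ + (S + |u|))) ≤
            (1 + |c|) * ((1 + ‖h‖) ^ 2 * ((1 + S) * (1 + |u|))) := by
          have n2 : 1 + (S + |u|) ≤ (1 + S) * (1 + |u|) := by nlinarith [mul_nonneg hS0 hu0]
          have n3 : 1 + 2 * ‖h‖ ≤ (1 + ‖h‖) ^ 2 := by nlinarith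
          have n4 : 1 + (2 * ‖h‖ + (S + |u|)) ≤ (1 + ‖h‖) ^ 2 * ((1 + S) * (1 + |u|)) := by
            have n5 : (1 + 2 * ‖h‖) * (1 + (S + |u|)) ≤ (1 + ‖h‖) ^ 2 * ((1 + S) * (1 + |u|)) :=
              mul_le_mul n3 n2 (by positivity) (by positivity)
            nlinarith [mul_nonneg hh0 (add_nonneg hS0 hu0)]
          have n6 : (1 + |c|) * (1 + (2 * ‖h‖ + (S + |u|))) ≤
              (1 + |c|) * ((1 + ‖h‖) ^ 2 * ((1 + S) * (1 + |u|))) :=
            mul_le_mul_of_nonneg_left n4 (by positivity)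
          nlinarith [mul_nonneg hc0' (add_nonneg (mul_nonneg (by norm_num : (0:ℝ) ≤ 2) hh0)
            (add_nonneg hS0 hu0))]
        linarith
      have m5 : Real.exp (c ^ 2 - u ^ 2 - 2 * Real.pi * (c * ξ 0)) ≤
          Real.exp (c ^ 2) * Real.exp (-(2 * Real.pi * (c * ξ 0))) * Real.exp (-(‖u‖ ^ 2) / 2) := by
        rw [← Real.exp_add, ← Real.exp_add]
        refine Real.exp_le_exp.2 ?_
        rw [Real.norm_eq_abs, sq_abs]
        nlinarith [sq_nonneg u]
      calc ‖f t ((c : ℂ) + ((h 0 + u : ℝ) : ℂ) * I)‖ *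
            Real.exp (c ^ 2 - u ^ 2 - 2 * Real.pi * (c * ξ 0))
          ≤ (C * ((1 + |c|) * ((1 + ‖h‖) ^ 2 * ((1 + S) * (1 + |u|)))) ^ N) *
            (Real.exp (c ^ 2) * Real.exp (-(2 * Real.pi * (c * ξ 0))) *
              Real.exp (-(‖u‖ ^ 2) / 2)) := by
            refine mul_le_mul (m1.trans (mul_le_mul_of_nonneg_left m4 hC)) m5
              (Real.exp_pos _).le (by positivity)
        _ = _ := by
            rw [mul_pow, mul_pow, mul_pow, ← pow_mul, Real.norm_eq_abs]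
            ring
    have k5 : Real.exp (∑ j : Fin k, (σ j ^ 2 - s j ^ 2 - 2 * Real.pi * (σ j * ξ j.succ))) ≤
        Real.exp (∑ j, σ j ^ 2) * Real.exp (-(2 * Real.pi * ∑ j, σ j * ξ j.succ)) *
          Real.exp (-(‖(WithLp.toLp 2 s : EuclideanSpace ℝ (Fin k))‖ ^ 2) / 2) := by
      rw [← Real.exp_add, ← Real.exp_add]
      refine Real.exp_le_exp.2 ?_
      rw [Finset.sum_sub_distrib, Finset.sum_sub_distrib, ← Finset.mul_sum,
        EuclideanSpace.real_norm_sq_eq]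
      have : 0 ≤ ∑ j, s j ^ 2 := Finset.sum_nonneg fun j _ => sq_nonneg _
      simp only
      linarith
    have k6 : dotr (Fin.cons c σ : Fin (k + 1) → ℝ) ξ = c * ξ 0 + ∑ j, σ j * ξ j.succ := by
      unfold dotr
      rw [Fin.sum_univ_succ]
      simp
    calc Real.exp (∑ j : Fin k, (σ j ^ 2 - s j ^ 2 - 2 * Real.pi * (σ j * ξ j.succ))) *
          ‖∫ u : ℝ, f t ((c : ℂ) + ((h 0 + u : ℝ) : ℂ) * I) *
            e0 (h 0) (ξ 0) ((c : ℂ) + ((h 0 + u : ℝ) : ℂ) * I)‖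
        ≤ (Real.exp (∑ j, σ j ^ 2) * Real.exp (-(2 * Real.pi * ∑ j, σ j * ξ j.succ)) *
          Real.exp (-(‖(WithLp.toLp 2 s : EuclideanSpace ℝ (Fin k))‖ ^ 2) / 2)) *
          ((C * (1 + |c|) ^ N * (1 + ‖h‖) ^ (2 * N) *
          (1 + ‖(WithLp.toLp 2 s : EuclideanSpace ℝ (Fin k))‖) ^ N * Real.exp (c ^ 2) *
          Real.exp (-(2 * Real.pi * (c * ξ 0)))) * T1) :=
          mul_le_mul k5 k4 (norm_nonneg _) (by positivity)
      _ = _ := by
          rw [k6]
          have : Real.exp (-(2 * Real.pi * (c * ξ 0 + ∑ j, σ j * ξ j.succ))) =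
              Real.exp (-(2 * Real.pi * (c * ξ 0))) *
                Real.exp (-(2 * Real.pi * ∑ j, σ j * ξ j.succ)) := by
            rw [← Real.exp_add]
            ring_nf
          rw [this]
          ring
  have hfin := norm_integral_le_of_norm_le (hint3.const_mul _) hae
  rw [← e2, integral_const_mul, ← hT2] at hfin
  calc ‖g h ξ‖ * Real.exp (2 * Real.pi * dotr (Fin.cons c σ : Fin (k + 1) → ℝ) ξ)
      ≤ ((C * (1 + |c|) ^ N * Real.exp (c ^ 2) * T1 * Real.exp (∑ j, σ j ^ 2) * (1 + ‖h‖) ^ (2 * N) *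
        Real.exp (-(2 * Real.pi * dotr (Fin.cons c σ : Fin (k + 1) → ℝ) ξ))) * T2) *
        Real.exp (2 * Real.pi * dotr (Fin.cons c σ : Fin (k + 1) → ℝ) ξ) :=
        mul_le_mul_of_nonneg_right hfin (Real.exp_pos _).le
    _ = (C * (1 + |c|) ^ N * Real.exp (c ^ 2) * T1 * Real.exp (∑ j, σ j ^ 2) * T2) *
        (1 + ‖h‖) ^ (2 * N) *
        (Real.exp (-(2 * Real.pi * dotr (Fin.cons c σ : Fin (k + 1) → ℝ) ξ)) *
        Real.exp (2 * Real.pi * dotr (Fin.cons c σ : Fin (k + 1) → ℝ) ξ)) := by ring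
    _ = _ := by
        rw [← Real.exp_add]
        simp

/-- The points over which almost all fibres continue belong to the largest domain. -/
theorem fibre_mem {D : Set (Fin (k + 1) → ℝ)} {G : (Fin (k + 1) → ℂ) → ℂ}
    {g : EuclideanSpace ℝ (Fin (k + 1)) → EuclideanSpace ℝ (Fin (k + 1)) → ℂ}
    (hD : Largest D G g) {σ : Fin k → ℝ} {c1 c0 : ℝ}
    (h1 : ∀ c, c1 < c → (Fin.cons c σ : Fin (k + 1) → ℝ) ∈ D)
    (f : (Fin k → ℝ) → ℂ → ℂ) {C : ℝ} {N : ℕ} (hC : 0 ≤ C)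
    (hf : ∀ᵐ t : Fin k → ℝ, DifferentiableOn ℂ (f t) {w | c0 < w.re} ∧
      (∀ w : ℂ, c1 < w.re → f t w = G (Fin.cons w (fun j => (σ j : ℂ) + t j * I))) ∧
      (∀ w : ℂ, c0 < w.re → ‖f t w‖ ≤ C * (1 + ‖t‖ + ‖w‖) ^ N)) {c : ℝ} (hc : c0 < c) :
    (Fin.cons c σ : Fin (k + 1) → ℝ) ∈ D := by
  have h2 := fibre_good hD h1 f hC hf (c := (c0 + c) / 2) (by linarith)
  set c3 : ℝ := max c c1 + 1 with hc3
  have h31 : c1 < c3 := by
    have := le_max_right c c1
    linarith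
  have h32 : c < c3 := by
    have := le_max_left c c1
    linarith
  have h3 := h1 c3 h31
  rw [hD.eq] at h3 ⊢
  have hpos : 0 < c3 - (c0 + c) / 2 := by linarith
  have h4 := (convex_Good g).combo_self_interior_mem_interior h2 h3
    (a := (c3 - c) / (c3 - (c0 + c) / 2)) (b := (c - (c0 + c) / 2) / (c3 - (c0 + c) / 2))
    (div_nonneg (by linarith) hpos.le) (div_pos (by linarith) hpos) (by
      rw [← add_div]
      rw [div_eq_one_iff_eq hpos.ne']
      ring)
  convert h4 using 1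
  funext i
  refine Fin.cases ?_ (fun i => ?_) i
  · simp only [Fin.cons_zero, Pi.add_apply, Pi.smul_apply, smul_eq_mul]
    rw [div_mul_eq_mul_div, div_mul_eq_mul_div, ← add_div, eq_div_iff hpos.ne']
    ring
  · simp only [Fin.cons_succ, Pi.add_apply, Pi.smul_apply, smul_eq_mul]
    rw [← add_mul, ← add_div]
    have : (c3 - c + (c - (c0 + c) / 2)) / (c3 - (c0 + c) / 2) = 1 := by
      rw [div_eq_one_iff_eq hpos.ne']
      ring
    rw [this, one_mul]

end Pool.Agent.W5h55.MC
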