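import Pool.Agent.W5h55.MC.Fib

set_option autoImplicit false
set_option linter.unusedSectionVars false

/-!
# The largest tube domain and the criteria
-/

namespace Pool.Agent.W5h55.MC

open Finset Filter Topology Complex MeasureTheory Pool.Agent.W5h65.MD Pool.Agent.W5h55.BT

variable {k : ℕ}

/-- `F_M` on the region of absolute convergence. -/
noncomputable def FF (M : ℕ) (z : Fin (k + 1) → ℂ) : ℂ := FM M ((fun j : Fin k => z j.succ), z 0)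

/-- `f` extends to the tube domain over `U`. -/
def Extends (f : (Fin (k + 1) → ℂ) → ℂ) (U : Set (Fin (k + 1) → ℝ)) : Prop :=
  IsOpen U ∧ IsConnected U ∧ (∀ p : Fin (k + 1) → ℝ, (∀ i, 1 < p i) → p ∈ U) ∧
  ∃ G : (Fin (k + 1) → ℂ) → ℂ, DifferentiableOn ℂ G {z | (fun i => (z i).re) ∈ U} ∧
    (∀ z : Fin (k + 1) → ℂ, (∀ i, 1 < (z i).re) → G z = f z) ∧
    ∀ K ⊆ U, IsCompact K → ∃ (C : ℝ) (N : ℕ), ∀ z : Fin (k + 1) → ℂ, (fun i => (z i).re) ∈ K →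
      ‖G z‖ ≤ C * (1 + ‖fun i => (z i).im‖) ^ N

/-- The point `(ω; 1/2, …, 1/2)`. -/
noncomputable def crit (k : ℕ) (ω : ℝ) : Fin (k + 1) → ℝ := Fin.cons ω (fun _ => 1 / 2)

/-- The first coordinate of the centre. -/
noncomputable def cen (p : Fin (k + 1) → ℝ) : ℝ := p 0 + (∑ j : Fin k, (p j.succ - 1 / 2)) / 2

/-- Question Q1. -/
def Q1 (k M : ℕ) : Prop := ∃ U, Extends (FF (k := k) M) U ∧ crit k 1 ∈ U

theorem Base.extends {Λ : ℕ → ℂ → ℂ} (hΛ : IsCont Λ) {M : ℕ} {D : Set (Fin (k + 1) → ℝ)}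
    {G : (Fin (k + 1) → ℂ) → ℂ}
    {g : EuclideanSpace ℝ (Fin (k + 1)) → EuclideanSpace ℝ (Fin (k + 1)) → ℂ}
    (hB : Base Λ M D G g) : Extends (FF (k := k) M) D := by
  refine ⟨hB.lar.isOpen, ⟨⟨_, hB.quad (show (fun _ => 2 : Fin (k + 1) → ℝ) ∈ QQ k from
    fun i => by norm_num)⟩, hB.lar.convex.isPreconnected⟩, fun p hp => hB.quad hp, G,
    hB.lar.holo, fun z hz => ?_, fun K hK hKc => hB.lar.poly K hKc hK⟩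
  rw [← hB.eq1 z hz]
  exact FX_eq_FM hΛ M hz

theorem Base.max {Λ : ℕ → ℂ → ℂ} (hΛ : IsCont Λ) {M : ℕ} {D : Set (Fin (k + 1) → ℝ)}
    {G : (Fin (k + 1) → ℂ) → ℂ}
    {g : EuclideanSpace ℝ (Fin (k + 1)) → EuclideanSpace ℝ (Fin (k + 1)) → ℂ}
    (hB : Base Λ M D G g) {U : Set (Fin (k + 1) → ℝ)} (hU : Extends (FF (k := k) M) U) : U ⊆ D := by
  obtain ⟨h1, h2, h3, G', h4, h5, h6⟩ := hU
  have h7 : (fun _ => 2 : Fin (k + 1) → ℝ) ∈ QQ k := fun i => by norm_num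
  refine hB.lar.sub h1 h2.isPreconnected h4 (fun K hK hKU => h6 K hKU hK) (h3 _ h7)
    (hB.quad h7) fun y => ?_
  have hz : R (fun _ => 2 : Fin (k + 1) → ℝ) + J y ∈ Tube (QQ k) := add_J_mem (R_mem h7) y
  rw [← hB.eq1 _ hz, h5 _ hz]
  exact (FX_eq_FM hΛ M hz).symm

/-- The main theorem. -/
theorem final (k M : ℕ) :
    (∃ Λ : ℕ → ℂ → ℂ, IsCont Λ) ∧
    (∃ D : Set (Fin (k + 1) → ℝ), Extends (FF (k := k) M) D ∧ Convex ℝ D ∧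
      (∀ U, Extends (FF (k := k) M) U → U ⊆ D) ∧
      (∀ p ∈ D, ∀ j : Fin k, 0 < p j.succ → p j.succ < 1 → refl j p ∈ D) ∧
      (∀ p ∈ D, crit k (cen p) ∈ D) ∧
      ∀ Λ : ℕ → ℂ → ℂ, IsCont Λ → ∀ σ : Fin k → ℝ, (∀ j, 0 < σ j) → ∀ c : ℝ,
        ((Fin.cons c σ : Fin (k + 1) → ℝ) ∈ D ↔ Fib Λ M σ c)) ∧
    (Q1 k M ↔ ∃ U, Extends (FF (k := k) M) U ∧ ∃ p ∈ U, cen p ≤ 1) ∧
    ∀ Λ : ℕ → ℂ → ℂ, IsCont Λ → (Q1 k M ↔ Fib Λ M (fun _ : Fin k => 1 / 2) 1) ∧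
      ∀ σ : Fin k → ℝ, (∀ j, 0 < σ j) → Fib Λ M σ (1 - (∑ j, (σ j - 1 / 2)) / 2) → Q1 k M := by
  have hfib : ∀ Λ : ℕ → ℂ → ℂ, IsCont Λ → ∀ (D : Set (Fin (k + 1) → ℝ)),
      Extends (FF (k := k) M) D → (∀ U, Extends (FF (k := k) M) U → U ⊆ D) →
      ∃ G g, Base Λ M D G g := by
    intro Λ hΛ D hD hmax
    obtain ⟨D', G', g', hB'⟩ := exists_base (k := k) hΛ M
    have : D = D' := Set.Subset.antisymm (hB'.max hΛ hD) (hmax _ (hB'.extends hΛ))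
    rw [this]
    exact ⟨G', g', hB'⟩
  obtain ⟨Λ₀, hΛ₀⟩ := exists_cont
  obtain ⟨D, G, g, hB⟩ := exists_base (k := k) hΛ₀ M
  have hext := hB.extends hΛ₀
  have hmax : ∀ U, Extends (FF (k := k) M) U → U ⊆ D := fun U hU => hB.max hΛ₀ hU
  have hcen : ∀ p ∈ D, crit k (cen p) ∈ D := fun p hp => hB.ctr_mem hΛ₀ hp
  have hfib' : ∀ Λ : ℕ → ℂ → ℂ, IsCont Λ → ∀ σ : Fin k → ℝ, (∀ j, 0 < σ j) → ∀ c : ℝ,
      ((Fin.cons c σ : Fin (k + 1) → ℝ) ∈ D ↔ Fib Λ M σ c) := by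
    intro Λ hΛ σ hσ c
    obtain ⟨G', g', hB'⟩ := hfib Λ hΛ D hext hmax
    exact hB'.fib_iff hΛ hσ c
  have hQ : Q1 k M ↔ crit k 1 ∈ D := ⟨fun ⟨U, hU, h⟩ => hmax U hU h, fun h => ⟨D, hext, h⟩⟩
  have hcen1 : ∀ p ∈ D, cen p ≤ 1 → crit k 1 ∈ D := by
    intro p hp h
    refine hB.up_mem (hcen p hp) fun i => ?_
    refine Fin.cases ?_ (fun i => ?_) i
    · simpa [crit] using h
    · simp [crit]
  refine ⟨⟨Λ₀, hΛ₀⟩, ⟨D, hext, hB.lar.convex, hmax, fun p hp j h0 h1 => hB.refl_mem hΛ₀ hp j h0 h1,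
    hcen, hfib'⟩, ⟨fun h => ⟨D, hext, crit k 1, hQ.1 h, ?_⟩, fun ⟨U, hU, p, hp, h⟩ =>
    hQ.2 (hcen1 p (hmax U hU hp) h)⟩, fun Λ hΛ => ⟨?_, fun σ hσ h => ?_⟩⟩
  · simp [cen, crit]
  · rw [hQ, ← hfib' Λ hΛ (fun _ => 1 / 2) (fun _ => by norm_num) 1]
    rfl
  · rw [← hfib' Λ hΛ σ hσ] at h
    refine hQ.2 (hcen1 _ h ?_)
    simp [cen]

end Pool.Agent.W5h55.MC
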