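import Mathlib

set_option autoImplicit false

/-!
# Convex open sets which are invariant under the reflections `s_j → 1 - s_j`, `w → w + s_j - 1/2`

A point of `Fin (k + 1) → ℝ` has the coordinate `w` at `0` and `s_j` at `j.succ`.
-/

namespace Pool.Agent.W5h55.MC

open Finset

variable {k : ℕ}

/-- The reflection `s_j → 1 - s_j`, `w → w + s_j - 1/2`. -/
noncomputable def refl {𝕂 : Type*} [Field 𝕂] (j : Fin k) (p : Fin (k + 1) → 𝕂) : Fin (k + 1) → 𝕂 :=
  Fin.cons (p 0 + p j.succ - 1 / 2) (fun i => if i = j then 1 - p j.succ else p i.succ)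

/-- The midpoint of `p` and its image, and partial centres. -/
noncomputable def mid (S : Finset (Fin k)) (p : Fin (k + 1) → ℝ) : Fin (k + 1) → ℝ :=
  Fin.cons (p 0 + (∑ j ∈ S, (p j.succ - 1 / 2)) / 2) (fun i => if i ∈ S then 1 / 2 else p i.succ)

theorem up {D : Set (Fin (k + 1) → ℝ)} (hD : IsOpen D) (hc : Convex ℝ D)
    (hQ : ∀ p : Fin (k + 1) → ℝ, (∀ i, 1 < p i) → p ∈ D) {p v : Fin (k + 1) → ℝ} (hp : p ∈ D)
    (hv : ∀ i, 0 ≤ v i) : p + v ∈ D := by
  obtain ⟨ε, hε, hball⟩ := Metric.isOpen_iff.1 hD p hp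
  set e : ℝ := ε / 2 with he
  have he0 : 0 < e := by positivity
  have h1 : p - (fun _ => e) ∈ D := by
    refine hball ?_
    rw [Metric.mem_ball, dist_eq_norm]
    have : p - (fun _ => e) - p = fun _ => -e := by
      funext i
      simp
    rw [this]
    refine lt_of_le_of_lt ((pi_norm_le_iff_of_nonneg he0.le).2 fun i => ?_) (show e < ε by linarith)
    rw [Real.norm_eq_abs, abs_neg, abs_of_pos he0]
  set N : ℝ := (2 + ‖p‖ + e) / e with hN
  have hNe : N * e = 2 + ‖p‖ + e := by rw [hN]; field_simp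
  have hp0 : 0 ≤ ‖p‖ := norm_nonneg p
  have hN1 : 1 ≤ N := by
    rw [hN, le_div_iff₀ he0]
    linarith
  have hN0 : 0 < N := by linarith
  have h2 : (p - (fun _ => e)) + N • (v + fun _ => e) ∈ D := by
    refine hQ _ fun i => ?_
    simp only [Pi.add_apply, Pi.sub_apply, Pi.smul_apply, smul_eq_mul]
    have h3 : -‖p‖ ≤ p i := by
      have := norm_le_pi_norm p i
      rw [Real.norm_eq_abs] at this
      exact (abs_le.1 this).1
    have h4 : 0 ≤ N * v i := mul_nonneg hN0.le (hv i)
    nlinarith
  have h3 := hc h1 h2 (a := 1 - 1 / N) (b := 1 / N)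
    (by rw [sub_nonneg, div_le_one hN0]; exact hN1) (by positivity) (by ring)
  have h4 : p + v = (1 - 1 / N) • (p - (fun _ => e)) +
      (1 / N) • ((p - (fun _ => e)) + N • (v + fun _ => e)) := by
    funext i
    simp only [Pi.add_apply, Pi.sub_apply, Pi.smul_apply, smul_eq_mul]
    field_simp
    ring
  rw [h4]
  exact h3

/-- One step: moving `s_j` to `1/2`. -/
theorem mid_step {D : Set (Fin (k + 1) → ℝ)} (hD : IsOpen D) (hc : Convex ℝ D)
    (hQ : ∀ p : Fin (k + 1) → ℝ, (∀ i, 1 < p i) → p ∈ D)
    (hR : ∀ p ∈ D, ∀ j : Fin k, 0 < p j.succ → p j.succ < 1 → refl j p ∈ D)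
    {p : Fin (k + 1) → ℝ} (hp : p ∈ D) (j : Fin k) {C : ℝ}
    (hC : (Fin.cons C (fun i : Fin k => if i = j then 1 / 2 else p i.succ) : Fin (k + 1) → ℝ) ∈ D) :
    (Fin.cons (p 0 + (p j.succ - 1 / 2) / 2) (fun i : Fin k => if i = j then 1 / 2 else p i.succ) :
      Fin (k + 1) → ℝ) ∈ D := by
  set τ : Fin k → ℝ := fun i : Fin k => if i = j then 1 / 2 else p i.succ with hτ
  set a : ℝ := p j.succ with ha
  set cm : ℝ := p 0 + (a - 1 / 2) / 2 with hcm
  -- monotone in the first coordinate
  have hup : ∀ y y' : ℝ, y ≤ y' → (Fin.cons y τ : Fin (k + 1) → ℝ) ∈ D →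
      (Fin.cons y' τ : Fin (k + 1) → ℝ) ∈ D := by
    intro y y' hy h
    have h1 := up hD hc hQ h (v := Fin.cons (y' - y) (fun _ => 0)) (fun i => by
      refine Fin.cases ?_ (fun i => ?_) i
      · simpa using hy
      · simp)
    have h2 : (Fin.cons y τ : Fin (k + 1) → ℝ) + Fin.cons (y' - y) (fun _ => 0) = Fin.cons y' τ := by
      funext i
      refine Fin.cases ?_ (fun i => ?_) i
      · simp
      · simp
    rwa [h2] at h1
  obtain ⟨ε, hε, hball⟩ := Metric.isOpen_iff.1 hD p hp
  set e : ℝ := ε / 2 with he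
  have he0 : 0 < e := by positivity
  have hpe : (Fin.cons (p 0 - e) (fun i => p i.succ) : Fin (k + 1) → ℝ) ∈ D := by
    refine hball ?_
    rw [Metric.mem_ball, dist_eq_norm]
    refine lt_of_le_of_lt ((pi_norm_le_iff_of_nonneg he0.le).2 fun i => ?_) (show e < ε by linarith)
    refine Fin.cases ?_ (fun i => ?_) i
    · simp [abs_of_pos he0]
    · simp [he0.le]
  set θ : ℝ := 1 / (2 * (1 + |a - 1 / 2|)) with hθ
  have hab : 0 ≤ |a - 1 / 2| := abs_nonneg _
  have hθ0 : 0 < θ := by positivity
  have hθ1 : θ ≤ 1 / 2 := by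
    rw [hθ, div_le_div_iff₀ (by positivity) (by norm_num)]
    linarith
  have hθa : θ * |a - 1 / 2| < 1 / 2 := by
    rw [hθ, div_mul_eq_mul_div, one_mul, div_lt_div_iff₀ (by positivity) (by norm_num)]
    linarith
  have hstep : ∀ y : ℝ, (Fin.cons y τ : Fin (k + 1) → ℝ) ∈ D →
      (Fin.cons ((1 - θ) * y + θ * (cm - e)) τ : Fin (k + 1) → ℝ) ∈ D := by
    intro y hy
    set z : Fin (k + 1) → ℝ := (1 - θ) • (Fin.cons y τ : Fin (k + 1) → ℝ) +
      θ • (Fin.cons (p 0 - e) (fun i => p i.succ) : Fin (k + 1) → ℝ) with hz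
    have hzD : z ∈ D := hc hy hpe (by linarith) hθ0.le (by ring)
    have hz0 : z 0 = (1 - θ) * y + θ * (p 0 - e) := by simp [hz]
    have hzs : ∀ i : Fin k, z i.succ = (1 - θ) * τ i + θ * p i.succ := by
      intro i
      simp [hz]
    have hzj : z j.succ = 1 / 2 + θ * (a - 1 / 2) := by
      rw [hzs, hτ]
      simp only [if_true]
      rw [← ha]
      ring
    have h1 : |θ * (a - 1 / 2)| < 1 / 2 := by
      rw [abs_mul, abs_of_pos hθ0]
      exact hθa
    have hrz := hR z hzD j (by rw [hzj]; linarith [(abs_lt.1 h1).1])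
      (by rw [hzj]; linarith [(abs_lt.1 h1).2])
    have h2 := hc hzD hrz (a := 1 / 2) (b := 1 / 2) (by norm_num) (by norm_num) (by norm_num)
    have h3 : (1 / 2 : ℝ) • z + (1 / 2 : ℝ) • refl j z =
        Fin.cons ((1 - θ) * y + θ * (cm - e)) τ := by
      funext i
      refine Fin.cases ?_ (fun i => ?_) i
      · simp only [Pi.add_apply, Pi.smul_apply, smul_eq_mul, refl, Fin.cons_zero]
        rw [hz0, hzj, hcm]
        ring
      · simp only [Pi.add_apply, Pi.smul_apply, smul_eq_mul, refl, Fin.cons_succ]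
        rcases eq_or_ne i j with hij | hij
        · subst hij
          simp only [if_true, hτ]
          ring
        · rw [if_neg hij, hzs]
          simp only [hτ, if_neg hij]
          ring
    rwa [h3] at h2
  have hiter : ∀ n : ℕ, (Fin.cons ((cm - e) + (1 - θ) ^ n * (C - (cm - e))) τ :
      Fin (k + 1) → ℝ) ∈ D := by
    intro n
    induction n with
    | zero =>
      have : (cm - e) + (1 - θ) ^ 0 * (C - (cm - e)) = C := by ring
      rw [this]
      exact hC
    | succ n ih =>
      have h1 := hstep _ ih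
      have h2 : (1 - θ) * ((cm - e) + (1 - θ) ^ n * (C - (cm - e))) + θ * (cm - e) =
          (cm - e) + (1 - θ) ^ (n + 1) * (C - (cm - e)) := by ring
      rwa [h2] at h1
  have hlim : Filter.Tendsto (fun n : ℕ => (cm - e) + (1 - θ) ^ n * (C - (cm - e))) Filter.atTop
      (nhds ((cm - e) + 0 * (C - (cm - e)))) := by
    refine Filter.Tendsto.const_add _ (Filter.Tendsto.mul_const _ ?_)
    exact tendsto_pow_atTop_nhds_zero_of_lt_one (by linarith) (by linarith)
  rw [zero_mul, add_zero] at hlim
  obtain ⟨n, hn⟩ := (hlim.eventually (gt_mem_nhds (show cm - e < cm by linarith))).exists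
  exact hup _ _ hn.le (hiter n)

/-- The centre of a point belongs to the set. -/
theorem center_mem {D : Set (Fin (k + 1) → ℝ)} (hD : IsOpen D) (hc : Convex ℝ D)
    (hQ : ∀ p : Fin (k + 1) → ℝ, (∀ i, 1 < p i) → p ∈ D) {A : ℝ}
    (hA : ∀ p : Fin (k + 1) → ℝ, (∀ j : Fin k, 0 < p j.succ) → A < p 0 → p ∈ D)
    (hR : ∀ p ∈ D, ∀ j : Fin k, 0 < p j.succ → p j.succ < 1 → refl j p ∈ D)
    {p : Fin (k + 1) → ℝ} (hp : p ∈ D) :
    (Fin.cons (p 0 + (∑ j : Fin k, (p j.succ - 1 / 2)) / 2) (fun _ => 1 / 2) :
      Fin (k + 1) → ℝ) ∈ D := by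
  classical
  set L : Finset (Fin k) := univ.filter (fun j => p j.succ ≤ 1 / 2) with hL
  have hmid : ∀ (S : Finset (Fin k)) (j : Fin k), j ∉ S → mid S p ∈ D → (∃ C : ℝ,
      (Fin.cons C (fun i : Fin k => if i = j then 1 / 2 else mid S p i.succ) :
        Fin (k + 1) → ℝ) ∈ D) → mid (insert j S) p ∈ D := by
    rintro S j hj hS ⟨C, hC⟩
    have h1 := mid_step hD hc hQ hR hS j hC
    have h2 : (Fin.cons (mid S p 0 + (mid S p j.succ - 1 / 2) / 2)
        (fun i : Fin k => if i = j then 1 / 2 else mid S p i.succ) : Fin (k + 1) → ℝ) =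
        mid (insert j S) p := by
      funext i
      refine Fin.cases ?_ (fun i => ?_) i
      · simp only [mid, Fin.cons_zero, Fin.cons_succ, if_neg hj, sum_insert hj]
        ring
      · simp only [mid, Fin.cons_succ, mem_insert]
        by_cases h : i = j
        · simp [h]
        · simp [h]
    rwa [h2] at h1
  have hSA : ∀ S : Finset (Fin k), S ⊆ L → mid S p ∈ D := by
    intro S
    induction S using Finset.induction_on with
    | empty =>
      intro _
      have : mid ∅ p = p := by
        funext i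
        refine Fin.cases ?_ (fun i => ?_) i
        · simp [mid]
        · simp [mid]
      rwa [this]
    | insert j S hj ih =>
      intro hS
      have h1 := ih ((subset_insert j S).trans hS)
      refine hmid S j hj h1 ⟨mid S p 0, ?_⟩
      have h2 : p j.succ ≤ 1 / 2 := by
        have := hS (mem_insert_self j S)
        simpa [hL] using this
      have h3 := up hD hc hQ h1 (v := Fin.cons 0 (fun i => if i = j then 1 / 2 - p j.succ else 0))
        (fun i => by
          refine Fin.cases ?_ (fun i => ?_) i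
          · simp
          · simp only [Fin.cons_succ]
            split_ifs
            · linarith
            · exact le_rfl)
      convert h3 using 1
      funext i
      refine Fin.cases ?_ (fun i => ?_) i
      · simp
      · simp only [Fin.cons_succ, Pi.add_apply]
        by_cases h : i = j
        · subst h
          simp [mid, hj]
        · simp [h]
  have hSB : ∀ T : Finset (Fin k), Disjoint T L → mid (L ∪ T) p ∈ D := by
    intro T
    induction T using Finset.induction_on with
    | empty =>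
      intro _
      rw [union_empty]
      exact hSA L subset_rfl
    | insert j T hj ih =>
      intro hT
      rw [disjoint_insert_left] at hT
      have h1 := ih hT.2
      have h2 : j ∉ L ∪ T := by
        rw [mem_union, not_or]
        exact ⟨hT.1, hj⟩
      rw [union_insert]
      refine hmid _ j h2 h1 ⟨A + 1, hA _ (fun i => ?_) (by simp)⟩
      simp only [Fin.cons_succ]
      split_ifs with h3
      · norm_num
      · simp only [mid, Fin.cons_succ]
        split_ifs with h4
        · norm_num
        · have h5 : i ∉ L := fun h => h4 (mem_union_left _ h)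
          simp only [hL, mem_filter, mem_univ, true_and, not_le] at h5
          linarith
  have h1 := hSB Lᶜ disjoint_compl_left
  rw [union_compl] at h1
  convert h1 using 1
  funext i
  refine Fin.cases ?_ (fun i => ?_) i
  · simp [mid]
  · simp [mid]

end Pool.Agent.W5h55.MC
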