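import Pool.Agent.W5h55.MC.Chr

set_option autoImplicit false

/-!
# The `L`-functions of positive fundamental discriminants: continuation, functional equation, growth
-/

namespace Pool.Agent.W5h55.MC

open Finset Filter Topology Complex Pool.Agent.W5h65.MD MeasureTheory

theorem LFunction_eq_LL {d : ℕ} [NeZero d] (χ : DirichletCharacter ℂ d)
    (h : ∀ n : ℕ, n ≠ 0 → χ (n : ZMod d) = ((kr d n : ℤ) : ℂ)) {s : ℂ} (hs : 1 < s.re) :
    DirichletCharacter.LFunction χ s = LL d s := by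
  rw [DirichletCharacter.LFunction_eq_LSeries _ hs]
  unfold LSeries LL
  refine tsum_congr fun n => ?_
  rcases eq_or_ne n 0 with rfl | hn
  · simp only [LSeries.term_zero]
    rw [Nat.cast_zero, zero_cpow_neg hs, mul_zero]
  · rw [LSeries.term_of_ne_zero hn, h n hn, Complex.cpow_neg, div_eq_mul_inv]

theorem rootNumber_eq_one {d : ℕ} [hd : NeZero d] {χ : DirichletCharacter ℂ d}
    (h1 : χ.IsPrimitive) (h2 : χ ^ 2 = 1) (h3 : χ ≠ 1) :
    DirichletCharacter.rootNumber χ = 1 := by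
  obtain ⟨-, hsym, hpos⟩ := Pool.Agent.W215.QP.fe d hd χ h1 h2 h3
  have hinv : χ⁻¹ = χ := by
    have : χ * χ = 1 := by rw [← pow_two]; exact h2
    exact inv_eq_of_mul_eq_one_left this
  have hd0 : 0 < (d : ℝ) := by exact_mod_cast Nat.pos_of_ne_zero hd.out
  have hdc : (d : ℂ) ≠ 0 := by exact_mod_cast hd.out
  have e1 := h1.completedLFunction_one_sub (1 : ℂ)
  have e0 := h1.completedLFunction_one_sub (0 : ℂ)
  rw [hinv] at e1 e0
  rw [sub_self] at e1
  rw [sub_zero] at e0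
  set W := DirichletCharacter.rootNumber χ with hW
  set c1 := DirichletCharacter.completedLFunction χ 1 with hc1
  set c0 := DirichletCharacter.completedLFunction χ 0 with hc0
  have p1 : 0 < c1.re := by
    have := hpos 1 le_rfl
    unfold Pool.Agent.W169.QP.Lam at this
    have h5 : 0 < (d : ℝ) ^ ((1 : ℝ) / 2) := by positivity
    have h6 : ((1 : ℝ) : ℂ) = 1 := by norm_num
    rw [h6] at this
    exact pos_of_mul_pos_right this h5.le
  have p0 : c0.re = (d : ℝ) ^ ((1 : ℝ) / 2) * c1.re := by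
    have := hsym 1
    unfold Pool.Agent.W169.QP.Lam at this
    have h6 : ((1 : ℝ) : ℂ) = 1 := by norm_num
    have h7 : (((1 : ℝ) - 1 : ℝ) : ℂ) = 0 := by norm_num
    rw [h6, h7] at this
    simpa using this
  have hc1ne : c1 ≠ 0 := by
    intro h
    rw [h] at p1
    simp at p1
  have q1 : (d : ℂ) ^ ((1 : ℂ) - 1 / 2) = (((d : ℝ) ^ ((1 : ℝ) / 2) : ℝ) : ℂ) := by
    rw [Complex.ofReal_cpow hd0.le]
    push_cast
    norm_num
  have q0 : (d : ℂ) ^ ((0 : ℂ) - 1 / 2) = ((((d : ℝ) ^ ((1 : ℝ) / 2))⁻¹ : ℝ) : ℂ) := by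
    rw [← Real.rpow_neg hd0.le, Complex.ofReal_cpow hd0.le]
    push_cast
    norm_num
  set r : ℝ := (d : ℝ) ^ ((1 : ℝ) / 2) with hr
  have hr0 : 0 < r := by positivity
  rw [q1] at e1
  rw [q0] at e0
  -- `W ^ 2 = 1`
  have hrc : (r : ℂ) ≠ 0 := by exact_mod_cast hr0.ne'
  have hWsq : W * W = 1 := by
    have h5 : c1 = (W * W) * c1 := by
      have h6 : c1 = ((r⁻¹ : ℝ) : ℂ) * W * ((r : ℂ) * W * c1) := by
        rw [← e1]
        exact e0
      refine h6.trans ?_
      rw [Complex.ofReal_inv]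
      calc (r : ℂ)⁻¹ * W * ((r : ℂ) * W * c1) = ((r : ℂ)⁻¹ * (r : ℂ)) * ((W * W) * c1) := by ring
        _ = (W * W) * c1 := by rw [inv_mul_cancel₀ hrc, one_mul]
    have h6 : (W * W - 1) * c1 = 0 := by linear_combination -h5
    rcases mul_eq_zero.1 h6 with h | h
    · exact sub_eq_zero.1 h
    · exact absurd h hc1ne
  rcases mul_self_eq_one_iff.1 hWsq with h | h
  · exact h
  · exfalso
    rw [h] at e1
    have h5 : c0.re = -(r * c1.re) := by
      rw [e1]
      have : (r : ℂ) * -1 * c1 = ((-r : ℝ) : ℂ) * c1 := by push_cast; ring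
      rw [this, Complex.re_ofReal_mul]
      ring
    rw [p0] at h5
    have := mul_pos hr0 p1
    linarith

/-- Continuation, growth and functional equation. -/
theorem exists_L {d : ℕ} (hd : IsFund d) (h1 : 1 < d) : ∃ Λ : ℂ → ℂ, Differentiable ℂ Λ ∧
    (∀ s : ℂ, 1 < s.re → Λ s = LL d s) ∧
    (∀ s : ℂ, 0 < s.re → ‖Λ s‖ ≤ ‖s‖ * ((d + 1) / s.re)) ∧
    (∀ s : ℂ, 0 < s.re → s.re < 1 →
      Λ s * Gammaℝ s = (d : ℂ) ^ (1 / 2 - s) * (Λ (1 - s) * Gammaℝ (1 - s))) := by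
  obtain ⟨h0, χ, hp, hsq, hne, hev, hkr⟩ := exists_char hd h1
  refine ⟨DirichletCharacter.LFunction χ, DirichletCharacter.differentiable_LFunction hne,
    fun s hs => LFunction_eq_LL χ hkr hs, fun s hs => H855R2.SF.growth_right hne hs,
    fun s hs0 hs1 => ?_⟩
  have hinv : χ⁻¹ = χ := by
    have : χ * χ = 1 := by rw [← pow_two]; exact hsq
    exact inv_eq_of_mul_eq_one_left this
  have hG : ∀ s : ℂ, 0 < s.re → DirichletCharacter.LFunction χ s * Gammaℝ s =
      DirichletCharacter.completedLFunction χ s := by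
    intro s hs
    rw [DirichletCharacter.LFunction_eq_completed_div_gammaFactor χ s (Or.inr (by omega)),
      hev.gammaFactor_def]
    exact div_mul_cancel₀ _ (Gammaℝ_ne_zero_of_re_pos hs)
  rw [hG s hs0, hG (1 - s) (by simpa using hs1)]
  have h5 := hp.completedLFunction_one_sub (1 - s)
  rw [hinv, rootNumber_eq_one hp hsq hne, sub_sub_cancel, mul_one] at h5
  rw [h5]
  congr 2
  ring

/-! ### The quotient of Gamma factors -/

lemma norm_beta_le {s : ℂ} (hs : 0 < s.re) {u : ℝ} (hu : 0 < u) :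
    ‖betaIntegral s u‖ ≤ ‖betaIntegral (s.re : ℂ) u‖ := by
  have hn : ∀ w : ℂ, w.re = s.re → ∀ x ∈ Set.Ioo (0 : ℝ) 1,
      ‖(x : ℂ) ^ (w - 1) * (1 - (x : ℂ)) ^ ((u : ℂ) - 1)‖ = x ^ (s.re - 1) * (1 - x) ^ (u - 1) := by
    intro w hw x hx
    rw [norm_mul, norm_cpow_eq_rpow_re_of_pos hx.1]
    have : (1 : ℂ) - x = ((1 - x : ℝ) : ℂ) := by push_cast; rfl
    rw [this, norm_cpow_eq_rpow_re_of_pos (by linarith [hx.2])]
    simp [hw]
  have hr : betaIntegral (s.re : ℂ) u =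
      ((∫ x in (0 : ℝ)..1, x ^ (s.re - 1) * (1 - x) ^ (u - 1) : ℝ) : ℂ) := by
    rw [betaIntegral, ← intervalIntegral.integral_ofReal]
    rw [intervalIntegral.integral_of_le zero_le_one, intervalIntegral.integral_of_le zero_le_one,
      integral_Ioc_eq_integral_Ioo, integral_Ioc_eq_integral_Ioo]
    refine setIntegral_congr_fun measurableSet_Ioo fun x hx => ?_
    push_cast
    rw [ofReal_cpow hx.1.le, ofReal_cpow (by linarith [hx.2] : 0 ≤ 1 - x)]
    push_cast
    rfl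
  have hnn : 0 ≤ ∫ x in (0 : ℝ)..1, x ^ (s.re - 1) * (1 - x) ^ (u - 1) := by
    refine intervalIntegral.integral_nonneg zero_le_one fun x hx => ?_
    have h1 := hx.1
    have h2 : 0 ≤ 1 - x := by linarith [hx.2]
    positivity
  rw [hr, norm_real, Real.norm_of_nonneg hnn, betaIntegral]
  refine (intervalIntegral.norm_integral_le_integral_norm zero_le_one).trans (le_of_eq ?_)
  rw [intervalIntegral.integral_of_le zero_le_one, intervalIntegral.integral_of_le zero_le_one,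
    integral_Ioc_eq_integral_Ioo, integral_Ioc_eq_integral_Ioo]
  exact setIntegral_congr_fun measurableSet_Ioo fun x hx => hn s rfl x hx

lemma Gamma_ratio {s : ℂ} (hs : 0 < s.re) {u : ℝ} (hu : 0 < u) :
    ‖Gamma s‖ * Real.Gamma (s.re + u) ≤ ‖Gamma (s + u)‖ * Real.Gamma s.re := by
  have h1 := Complex.Gamma_mul_Gamma_eq_betaIntegral (s := s) (t := (u : ℂ)) hs (by simpa using hu)
  have h2 := Complex.Gamma_mul_Gamma_eq_betaIntegral (s := (s.re : ℂ)) (t := (u : ℂ))
    (by simpa using hs) (by simpa using hu)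
  have h3 := norm_beta_le hs hu
  have e1 := congrArg norm h1
  have e2 := congrArg norm h2
  have hGu : 0 < Real.Gamma u := Real.Gamma_pos_of_pos hu
  have hGs : 0 < Real.Gamma s.re := Real.Gamma_pos_of_pos hs
  have hGsu : 0 < Real.Gamma (s.re + u) := Real.Gamma_pos_of_pos (by linarith)
  rw [norm_mul, norm_mul, Complex.Gamma_ofReal, norm_real, Real.norm_of_nonneg hGu.le] at e1
  rw [norm_mul, norm_mul, ← ofReal_add, Complex.Gamma_ofReal, Complex.Gamma_ofReal,
    Complex.Gamma_ofReal, norm_real, norm_real,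
    norm_real, Real.norm_of_nonneg hGu.le, Real.norm_of_nonneg hGs.le,
    Real.norm_of_nonneg hGsu.le] at e2
  have h4 : ‖Gamma s‖ * Real.Gamma u * Real.Gamma (s.re + u) ≤
      ‖Gamma (s + u)‖ * (Real.Gamma s.re * Real.Gamma u) := by
    rw [e1, e2]
    calc ‖Gamma (s + u)‖ * ‖betaIntegral s u‖ * Real.Gamma (s.re + u)
        ≤ ‖Gamma (s + u)‖ * ‖betaIntegral (s.re : ℂ) u‖ * Real.Gamma (s.re + u) := by gcongr
      _ = _ := by ring
  have h5 : (‖Gamma s‖ * Real.Gamma (s.re + u)) * Real.Gamma u ≤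
      (‖Gamma (s + u)‖ * Real.Gamma s.re) * Real.Gamma u := by
    calc _ = ‖Gamma s‖ * Real.Gamma u * Real.Gamma (s.re + u) := by ring
      _ ≤ _ := h4
      _ = _ := by ring
  exact le_of_mul_le_mul_right h5 hGu

/-- The factor `π ^ (s - 1/2) Γ((1 - s)/2) / Γ(s/2)`. -/
noncomputable def XX (s : ℂ) : ℂ := Gammaℝ (1 - s) / Gammaℝ s

/-- The size of the factor. -/
noncomputable def kap (σ : ℝ) : ℝ :=
  Real.pi ^ (σ - 1 / 2) * (Real.Gamma ((1 - σ) / 2) / Real.Gamma (σ / 2 + 1))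

theorem norm_XX {s : ℂ} (h0 : 0 < s.re) (h1 : s.re < 1) : ‖XX s‖ ≤ kap s.re * (1 + |s.im|) := by
  set u : ℂ := (1 - s) / 2 with hu
  set v : ℂ := (starRingEnd ℂ) (s / 2) with hv
  have hur : u.re = (1 - s.re) / 2 := by simp [hu]
  have hvr : v.re = s.re / 2 := by
    rw [hv, Complex.conj_re]
    simp
  have hvi : v.im = -(s.im / 2) := by
    rw [hv, Complex.conj_im]
    simp
  set r : ℝ := s.re / 2 + 1 - (1 - s.re) / 2 with hr
  have hr0 : 0 < r := by rw [hr]; linarith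
  have huv : u + (r : ℂ) = v + 1 := by
    apply Complex.ext
    · rw [Complex.add_re, Complex.add_re, hur, hvr, Complex.ofReal_re, Complex.one_re, hr]
      ring
    · rw [Complex.add_im, Complex.add_im, hvi]
      simp [hu]
      ring
  have hv0 : v ≠ 0 := by
    intro h
    rw [h] at hvr
    simp at hvr
    linarith
  have k1 := Gamma_ratio (s := u) (by rw [hur]; linarith) hr0
  rw [huv, Complex.Gamma_add_one v hv0, hur, norm_mul] at k1
  have k2 : (1 - s.re) / 2 + r = s.re / 2 + 1 := by rw [hr]; ring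
  rw [k2] at k1
  have k3 : ‖Gamma v‖ = ‖Gamma (s / 2)‖ := by
    rw [hv, Complex.Gamma_conj, Complex.norm_conj]
  have k4 : ‖v‖ ≤ 1 + |s.im| := by
    rw [hv, Complex.norm_conj, norm_div]
    have h2 := Complex.norm_le_abs_re_add_abs_im s
    rw [abs_of_pos h0] at h2
    have h3 : ‖(2 : ℂ)‖ = 2 := by simp
    rw [h3]
    have := abs_nonneg s.im
    linarith
  have hG1 : 0 < Real.Gamma (s.re / 2 + 1) := Real.Gamma_pos_of_pos (by linarith)
  have hG2 : 0 < Real.Gamma ((1 - s.re) / 2) := Real.Gamma_pos_of_pos (by linarith)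
  have hGs : 0 < ‖Gamma (s / 2)‖ := by
    refine norm_pos_iff.2 (Complex.Gamma_ne_zero_of_re_pos ?_)
    simpa using h0
  rw [k3] at k1
  have k5 : ‖Gamma u‖ / ‖Gamma (s / 2)‖ ≤
      (1 + |s.im|) * (Real.Gamma ((1 - s.re) / 2) / Real.Gamma (s.re / 2 + 1)) := by
    rw [div_le_iff₀ hGs]
    have k6 : ‖Gamma u‖ ≤ ‖v‖ * ‖Gamma (s / 2)‖ * Real.Gamma ((1 - s.re) / 2) /
        Real.Gamma (s.re / 2 + 1) := by
      rw [le_div_iff₀ hG1]
      exact k1
    refine k6.trans ?_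
    calc ‖v‖ * ‖Gamma (s / 2)‖ * Real.Gamma ((1 - s.re) / 2) / Real.Gamma (s.re / 2 + 1)
        ≤ (1 + |s.im|) * ‖Gamma (s / 2)‖ * Real.Gamma ((1 - s.re) / 2) /
          Real.Gamma (s.re / 2 + 1) := by gcongr
      _ = _ := by ring
  have k7 : ‖XX s‖ = Real.pi ^ (s.re - 1 / 2) * (‖Gamma u‖ / ‖Gamma (s / 2)‖) := by
    unfold XX
    rw [Gammaℝ_def, Gammaℝ_def, norm_div, norm_mul, norm_mul]
    have m1 : ‖(Real.pi : ℂ) ^ (-(1 - s) / 2)‖ = Real.pi ^ ((s.re - 1) / 2) := by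
      rw [norm_cpow_eq_rpow_re_of_pos Real.pi_pos]
      congr 1
      simp
    have m2 : ‖(Real.pi : ℂ) ^ (-s / 2)‖ = Real.pi ^ (-(s.re / 2)) := by
      rw [norm_cpow_eq_rpow_re_of_pos Real.pi_pos]
      congr 1
      simp
      ring
    rw [m1, m2]
    have m3 : Real.pi ^ ((s.re - 1) / 2) = Real.pi ^ (s.re - 1 / 2) * Real.pi ^ (-(s.re / 2)) := by
      rw [← Real.rpow_add Real.pi_pos]
      congr 1
      ring
    rw [m3]
    have m4 : 0 < Real.pi ^ (-(s.re / 2)) := Real.rpow_pos_of_pos Real.pi_pos _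
    rw [← hu]
    field_simp
  rw [k7]
  unfold kap
  calc Real.pi ^ (s.re - 1 / 2) * (‖Gamma u‖ / ‖Gamma (s / 2)‖)
      ≤ Real.pi ^ (s.re - 1 / 2) * ((1 + |s.im|) *
          (Real.Gamma ((1 - s.re) / 2) / Real.Gamma (s.re / 2 + 1))) := by
        gcongr
    _ = _ := by ring

theorem continuousAt_kap {σ : ℝ} (h0 : 0 < σ) (h1 : σ < 1) : ContinuousAt kap σ := by
  unfold kap
  have hg : ∀ x : ℝ, 0 < x → ContinuousAt Real.Gamma x := fun x hx =>
    (Real.differentiableAt_Gamma fun m => by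
      have : (0 : ℝ) ≤ m := Nat.cast_nonneg m
      linarith).continuousAt
  refine ContinuousAt.mul ?_ (ContinuousAt.div ?_ ?_ ?_)
  · exact (continuousAt_const.rpow (by fun_prop) (Or.inl Real.pi_ne_zero))
  · exact ContinuousAt.comp (g := Real.Gamma) (f := fun x : ℝ => (1 - x) / 2)
      (hg _ (by linarith)) (by fun_prop)
  · exact ContinuousAt.comp (g := Real.Gamma) (f := fun x : ℝ => x / 2 + 1)
      (hg _ (by linarith)) (by fun_prop)
  · exact (Real.Gamma_pos_of_pos (by linarith)).ne'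

theorem differentiableAt_XX {s : ℂ} (h0 : 0 < s.re) (h1 : s.re < 1) : DifferentiableAt ℂ XX s := by
  have hg : ∀ x : ℂ, 0 < x.re → DifferentiableAt ℂ Gammaℝ x := by
    intro x hx
    have : Gammaℝ = fun s : ℂ => (Real.pi : ℂ) ^ (-s / 2) * Gamma (s / 2) := by
      funext s
      exact Gammaℝ_def s
    rw [this]
    refine DifferentiableAt.mul ?_ ?_
    · exact DifferentiableAt.const_cpow (by fun_prop) (Or.inl (by exact_mod_cast Real.pi_ne_zero))
    · refine DifferentiableAt.comp (g := Gamma) (f := fun s : ℂ => s / 2) x ?_ (by fun_prop)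
      refine differentiableAt_Gamma _ fun m hm => ?_
      have h2 := congrArg re hm
      simp at h2
      have : (0 : ℝ) ≤ m := Nat.cast_nonneg m
      linarith
  unfold XX
  refine DifferentiableAt.div ?_ (hg s h0) (Gammaℝ_ne_zero_of_re_pos h0)
  exact DifferentiableAt.comp (g := Gammaℝ) (f := fun s : ℂ => 1 - s) s
    (hg _ (by simpa using h1)) (by fun_prop)

/-- A local bound for the factor. -/
theorem exists_XX_bound {σ : ℝ} (h0 : 0 < σ) (h1 : σ < 1) : ∃ ε > 0, ∃ c : ℝ, 0 ≤ c ∧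
    ∀ s : ℂ, |s.re - σ| < ε → 0 < s.re → s.re < 1 → ‖XX s‖ ≤ c * (1 + |s.im|) := by
  have h2 := (continuousAt_kap h0 h1).eventually (gt_mem_nhds (show kap σ < |kap σ| + 1 by
    have := le_abs_self (kap σ)
    linarith))
  obtain ⟨ε, hε, hb⟩ := Metric.eventually_nhds_iff.1 h2
  refine ⟨ε, hε, |kap σ| + 1, by positivity, fun s hs hs0 hs1 => ?_⟩
  refine (norm_XX hs0 hs1).trans ?_
  have h3 := hb (y := s.re) (by rwa [Real.dist_eq])
  have h4 : 0 ≤ 1 + |s.im| := by positivity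
  exact mul_le_mul_of_nonneg_right h3.le h4

/-- The functional equation, solved for `L(s)`. -/
theorem fe_solved {d : ℕ} {Λ : ℂ → ℂ} {s : ℂ} (hs0 : 0 < s.re) (hs1 : s.re < 1)
    (h : Λ s * Gammaℝ s = (d : ℂ) ^ (1 / 2 - s) * (Λ (1 - s) * Gammaℝ (1 - s))) :
    Λ s = (d : ℂ) ^ (1 / 2 - s) * XX s * Λ (1 - s) := by
  have h1 := Gammaℝ_ne_zero_of_re_pos hs0
  have h2 : Λ s = ((d : ℂ) ^ (1 / 2 - s) * (Λ (1 - s) * Gammaℝ (1 - s))) / Gammaℝ s := by
    rw [eq_div_iff h1]
    exact h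
  rw [h2]
  unfold XX
  ring

end Pool.Agent.W5h55.MC
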