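import Pool.Agent.W5h55.MC.Ser2
import Pool.Agent.W5h55.MC.Fibre

set_option autoImplicit false
set_option linter.unusedSectionVars false

/-!
# The largest domain of the series, and its reflections
-/

namespace Pool.Agent.W5h55.MC

open Finset Filter Topology Complex Pool.Agent.W5h65.MD Pool.Agent.W5h55.BT

variable {k : ℕ}

/-- `D` is the largest domain of `F_M`. -/
structure Base (Λ : ℕ → ℂ → ℂ) (M : ℕ) (D : Set (Fin (k + 1) → ℝ)) (G : (Fin (k + 1) → ℂ) → ℂ)
    (g : EuclideanSpace ℝ (Fin (k + 1)) → EuclideanSpace ℝ (Fin (k + 1)) → ℂ) : Prop where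
  lar : Largest D G g
  quad : QQ k ⊆ D
  w1 : W1 k ⊆ D
  eq1 : ∀ z ∈ Tube (QQ k), FX Λ M z = G z
  eq2 : ∀ z ∈ Tube (W1 k), FX Λ M z = G z

theorem diffAt {U : Set (Fin (k + 1) → ℝ)} (hU : IsOpen U) {G : (Fin (k + 1) → ℂ) → ℂ}
    (hG : DifferentiableOn ℂ G (Tube U)) {z : Fin (k + 1) → ℂ} (hz : z ∈ Tube U) :
    DifferentiableAt ℂ G z :=
  (hG z hz).differentiableAt ((isOpen_Tube hU).mem_nhds hz)

theorem exists_base {Λ : ℕ → ℂ → ℂ} (hΛ : IsCont Λ) (M : ℕ) :
    ∃ (D : Set (Fin (k + 1) → ℝ)) (G : (Fin (k + 1) → ℂ) → ℂ)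
      (g : EuclideanSpace ℝ (Fin (k + 1)) → EuclideanSpace ℝ (Fin (k + 1)) → ℂ),
      Base Λ M D G g := by
  have h2 : (fun _ => 2 : Fin (k + 1) → ℝ) ∈ QQ k := fun i => by norm_num
  have hLQ := LB_QQ (k := k) hΛ M
  have hLW := LB_W1 (k := k) hΛ M
  obtain ⟨D, G, g, hD, hQD, hFG⟩ := exists_largest (isOpen_QQ k) (convex_QQ k).isPreconnected
    (LB.holo hΛ hLQ) (LB.poly hLQ) h2
  have hx : (fun _ => (k : ℝ) + 2 : Fin (k + 1) → ℝ) ∈ QQ k ∩ W1 k := by
    have hk : (0 : ℝ) ≤ k := Nat.cast_nonneg k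
    refine ⟨fun i => ?_, fun j => ?_, ?_⟩
    · show (1 : ℝ) < k + 2
      linarith
    · show (0 : ℝ) < k + 2
      linarith
    · show (k : ℝ) + 1 < k + 2
      linarith
  have hWD : W1 k ⊆ D := by
    refine hD.sub (isOpen_W1 k) (convex_W1 k).isPreconnected (LB.holo hΛ hLW) (LB.poly hLW) hx.2
      (hQD hx.1) fun y => ?_
    exact hFG (add_J_mem (R_mem hx.1) y)
  refine ⟨D, G, g, hD, hQD, hWD, hFG, ?_⟩
  refine eqOn_of_eqOn (isOpen_W1 k) (convex_W1 k) ((isOpen_QQ k).inter (isOpen_W1 k))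
    Set.inter_subset_right hx (fun z hz => diffAt (isOpen_W1 k) (LB.holo hΛ hLW) hz)
    (fun z hz => diffAt hD.isOpen hD.holo (hWD hz)) fun z hz => hFG hz.1

/-! ### reflections -/

theorem refl_zero {𝕂 : Type*} [Field 𝕂] (j : Fin k) (p : Fin (k + 1) → 𝕂) :
    refl j p 0 = p 0 + p j.succ - 1 / 2 := by simp [refl]

theorem refl_succ {𝕂 : Type*} [Field 𝕂] (j : Fin k) (p : Fin (k + 1) → 𝕂) (i : Fin k) :
    refl j p i.succ = if i = j then 1 - p j.succ else p i.succ := by simp [refl]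

theorem refl_refl (j : Fin k) (p : Fin (k + 1) → ℝ) :
    refl j (refl j p) = p := by
  funext i
  refine Fin.cases ?_ (fun i => ?_) i
  · rw [refl_zero, refl_zero, refl_succ, if_pos rfl]
    ring
  · rw [refl_succ]
    by_cases h : i = j
    · rw [if_pos h, refl_succ, if_pos rfl, h]
      ring
    · rw [if_neg h, refl_succ, if_neg h]

theorem re'_refl (j : Fin k) (z : Fin (k + 1) → ℂ) : re' (refl j z) = refl j (re' z) := by
  funext i
  refine Fin.cases ?_ (fun i => ?_) i
  · show (refl j z 0).re = refl j (re' z) 0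
    rw [refl_zero, refl_zero]
    simp [re']
  · show (refl j z i.succ).re = refl j (re' z) i.succ
    rw [refl_succ, refl_succ]
    by_cases h : i = j
    · rw [if_pos h, if_pos h]
      simp [re']
    · rw [if_neg h, if_neg h]
      rfl

theorem norm_im'_refl (j : Fin k) (z : Fin (k + 1) → ℂ) : ‖im' (refl j z)‖ ≤ 2 * ‖im' z‖ := by
  have h0 : ∀ i, |(z i).im| ≤ ‖im' z‖ := fun i => by
    have := norm_le_pi_norm (im' z) i
    rwa [Real.norm_eq_abs] at this
  refine (pi_norm_le_iff_of_nonneg (by positivity)).2 fun i => ?_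
  rw [Real.norm_eq_abs]
  refine Fin.cases ?_ (fun i => ?_) i
  · show |(refl j z 0).im| ≤ _
    rw [refl_zero]
    have e : (z 0 + z j.succ - 1 / 2).im = (z 0).im + (z j.succ).im := by simp
    rw [e]
    have := abs_add_le (z 0).im (z j.succ).im
    linarith [h0 0, h0 j.succ]
  · show |(refl j z i.succ).im| ≤ _
    rw [refl_succ]
    have h1 := norm_nonneg (im' z)
    by_cases h : i = j
    · rw [if_pos h]
      have e : (1 - z j.succ).im = -(z j.succ).im := by simp
      rw [e, abs_neg]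
      linarith [h0 j.succ]
    · rw [if_neg h]
      linarith [h0 i.succ]

theorem continuous_refl (j : Fin k) : Continuous (refl j : (Fin (k + 1) → ℝ) → Fin (k + 1) → ℝ) := by
  refine continuous_pi fun i => ?_
  refine Fin.cases ?_ (fun i => ?_) i
  · simp only [refl_zero]
    fun_prop
  · simp only [refl_succ]
    by_cases h : i = j
    · simp only [if_pos h]
      fun_prop
    · simp only [if_neg h]
      fun_prop

theorem differentiable_refl (j : Fin k) :
    Differentiable ℂ (refl j : (Fin (k + 1) → ℂ) → Fin (k + 1) → ℂ) := by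
  refine differentiable_pi.2 fun i => ?_
  refine Fin.cases ?_ (fun i => ?_) i
  · simp only [refl_zero]
    fun_prop
  · simp only [refl_succ]
    by_cases h : i = j
    · simp only [if_pos h]
      fun_prop
    · simp only [if_neg h]
      fun_prop

theorem refl_combo (j : Fin k) (x y : Fin (k + 1) → ℝ) {a b : ℝ} (hab : a + b = 1) :
    refl j (a • x + b • y) = a • refl j x + b • refl j y := by
  have hb : b = 1 - a := by linarith
  funext i
  refine Fin.cases ?_ (fun i => ?_) i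
  · simp only [Pi.add_apply, Pi.smul_apply, smul_eq_mul, refl_zero]
    rw [hb]
    ring
  · simp only [Pi.add_apply, Pi.smul_apply, smul_eq_mul, refl_succ]
    by_cases h : i = j
    · simp only [if_pos h]
      rw [hb]
      ring
    · simp only [if_neg h]

theorem Base.refl_mem {Λ : ℕ → ℂ → ℂ} (hΛ : IsCont Λ) {M : ℕ} {D : Set (Fin (k + 1) → ℝ)}
    {G : (Fin (k + 1) → ℂ) → ℂ}
    {g : EuclideanSpace ℝ (Fin (k + 1)) → EuclideanSpace ℝ (Fin (k + 1)) → ℂ}
    (hB : Base Λ M D G g) {p : Fin (k + 1) → ℝ} (hp : p ∈ D) (j : Fin k) (h0 : 0 < p j.succ)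
    (h1 : p j.succ < 1) : refl j p ∈ D := by
  have hDo := hB.lar.isOpen
  have hDc := hB.lar.convex
  set U : Set (Fin (k + 1) → ℝ) := {x | refl j x ∈ D ∧ 0 < x j.succ ∧ x j.succ < 1} with hU
  have hUo : IsOpen U := by
    refine (hDo.preimage (continuous_refl j)).inter ?_
    exact (isOpen_lt continuous_const (continuous_apply _)).inter
      (isOpen_lt (continuous_apply _) continuous_const)
  have hUc : Convex ℝ U := by
    rintro x ⟨x1, x2, x3⟩ y ⟨y1, y2, y3⟩ a b ha hb hab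
    refine ⟨?_, ?_, ?_⟩
    · rw [refl_combo j x y hab]
      exact hDc x1 y1 ha hb hab
    · have h := (convex_Ioi (0 : ℝ)) x2 y2 ha hb hab
      exact h
    · have h := (convex_Iio (1 : ℝ)) x3 y3 ha hb hab
      exact h
  set G' : (Fin (k + 1) → ℂ) → ℂ := fun z => XX (z j.succ) * G (refl j z) with hG'
  have hre : ∀ z ∈ Tube U, refl j z ∈ Tube D ∧ 0 < (z j.succ).re ∧ (z j.succ).re < 1 := by
    intro z hz
    refine ⟨?_, hz.2.1, hz.2.2⟩
    rw [mem_Tube, re'_refl]
    exact hz.1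
  have hdiff : DifferentiableOn ℂ G' (Tube U) := by
    intro z hz
    obtain ⟨a1, a2, a3⟩ := hre z hz
    refine DifferentiableAt.differentiableWithinAt ?_
    refine DifferentiableAt.mul ?_ ?_
    · exact DifferentiableAt.comp (g := XX) (f := fun z : Fin (k + 1) → ℂ => z j.succ) z
        (differentiableAt_XX a2 a3) (by fun_prop)
    · exact DifferentiableAt.comp (g := G) (f := refl j) z (diffAt hDo hB.lar.holo a1)
        (differentiable_refl j z)
  have hpoly : PolyBd U G' := by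
    refine polyBd_of_local fun x0 hx0 => ?_
    obtain ⟨ε, hε, c, hc, hcb⟩ := exists_XX_bound hx0.2.1 hx0.2.2
    obtain ⟨r, hr, hball⟩ := Metric.nhds_basis_closedBall.mem_iff.1 (hDo.mem_nhds hx0.1)
    obtain ⟨C, N, hCN⟩ := hB.lar.poly _ (isCompact_closedBall _ _) hball
    refine ⟨U ∩ ((refl j) ⁻¹' (Metric.ball (refl j x0) r) ∩
      {x | |x j.succ - x0 j.succ| < ε}), ?_, c * (|C| * 2 ^ N), N + 1, fun z hz => ?_⟩
    · refine (hUo.inter (((Metric.isOpen_ball).preimage (continuous_refl j)).inter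
        (isOpen_lt (by fun_prop) continuous_const))).mem_nhds ⟨hx0, ?_, ?_⟩
      · exact Metric.mem_ball_self hr
      · show |x0 j.succ - x0 j.succ| < ε
        rw [sub_self, abs_zero]
        exact hε
    · obtain ⟨hzU, hz1, hz2⟩ := hz
      obtain ⟨a1, a2, a3⟩ := hre z hzU
      have e1 : ‖XX (z j.succ)‖ ≤ c * (1 + ‖im' z‖) := by
        refine (hcb _ hz2 a2 a3).trans ?_
        have h3 := norm_le_pi_norm (im' z) j.succ
        rw [Real.norm_eq_abs] at h3
        have h4 : |(z j.succ).im| ≤ ‖im' z‖ := h3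
        gcongr
      have e2 : ‖G (refl j z)‖ ≤ |C| * 2 ^ N * (1 + ‖im' z‖) ^ N := by
        have h5 : (fun i => (refl j z i).re) ∈ Metric.closedBall (refl j x0) r := by
          have h6 : re' (refl j z) ∈ Metric.ball (refl j x0) r := by
            rw [re'_refl]
            exact hz1
          exact Metric.ball_subset_closedBall h6
        refine (hCN _ h5).trans ?_
        have h7 : (1 + ‖im' (refl j z)‖) ^ N ≤ 2 ^ N * (1 + ‖im' z‖) ^ N := by
          rw [← mul_pow]
          refine pow_le_pow_left₀ (by positivity) ?_ _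
          linarith [norm_im'_refl j z]
        calc C * (1 + ‖fun i => (refl j z i).im‖) ^ N
            ≤ |C| * (1 + ‖im' (refl j z)‖) ^ N :=
              mul_le_mul_of_nonneg_right (le_abs_self C) (by positivity)
          _ ≤ |C| * (2 ^ N * (1 + ‖im' z‖) ^ N) := mul_le_mul_of_nonneg_left h7 (abs_nonneg C)
          _ = _ := by ring
      show ‖XX (z j.succ) * G (refl j z)‖ ≤ _
      rw [norm_mul]
      calc ‖XX (z j.succ)‖ * ‖G (refl j z)‖
          ≤ (c * (1 + ‖im' z‖)) * (|C| * 2 ^ N * (1 + ‖im' z‖) ^ N) :=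
            mul_le_mul e1 e2 (norm_nonneg _) (by positivity)
        _ = c * (|C| * 2 ^ N) * (1 + ‖fun i => (z i).im‖) ^ (N + 1) := by
            rw [pow_succ]
            show _ = c * (|C| * 2 ^ N) * ((1 + ‖im' z‖) ^ N * (1 + ‖im' z‖))
            ring
  set x : Fin (k + 1) → ℝ := Fin.cons ((k : ℝ) + 2) (fun _ => 1 / 2) with hx
  have hx0 : x 0 = (k : ℝ) + 2 := by simp [hx]
  have hxs : ∀ i : Fin k, x i.succ = 1 / 2 := fun i => by simp [hx]
  have hxr : refl j x = x := by
    funext i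
    refine Fin.cases ?_ (fun i => ?_) i
    · rw [refl_zero, hx0, hxs]
      ring
    · rw [refl_succ, hxs, hxs]
      split_ifs <;> norm_num
  have hxW : x ∈ W1 k := by
    refine ⟨fun i => ?_, ?_⟩
    · rw [hxs]
      norm_num
    · rw [hx0]
      linarith
  have hxU : x ∈ U := by
    refine ⟨?_, ?_, ?_⟩
    · rw [hxr]
      exact hB.w1 hxW
    · rw [hxs]
      norm_num
    · rw [hxs]
      norm_num
  have hsub : U ⊆ D := by
    refine hB.lar.sub hUo hUc.isPreconnected hdiff hpoly hxU (hB.w1 hxW) fun y => ?_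
    set z : Fin (k + 1) → ℂ := R x + J y with hz
    have hzW : z ∈ Tube (W1 k) := add_J_mem (R_mem hxW) y
    have hzr : re' z = x := by rw [hz, re'_add_J, re'_R]
    have hzj : (z j.succ).re = 1 / 2 := by
      have := congrFun hzr j.succ
      rw [hxs] at this
      exact this
    have hrW : refl j z ∈ Tube (W1 k) := by
      rw [mem_Tube, re'_refl, hzr, hxr]
      exact hxW
    show XX (z j.succ) * G (refl j z) = G z
    rw [← hB.eq2 _ hrW, ← hB.eq2 _ hzW]
    exact (FX_refl hΛ M j (by rw [hzj]; norm_num) (by rw [hzj]; norm_num)).symm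
  refine hsub ⟨?_, ?_, ?_⟩
  · rw [refl_refl]
    exact hp
  · rw [refl_succ, if_pos rfl]
    linarith
  · rw [refl_succ, if_pos rfl]
    linarith

/-- The centre of a point. -/
noncomputable def ctr (p : Fin (k + 1) → ℝ) : Fin (k + 1) → ℝ :=
  Fin.cons (p 0 + (∑ j : Fin k, (p j.succ - 1 / 2)) / 2) (fun _ => 1 / 2)

theorem Base.ctr_mem {Λ : ℕ → ℂ → ℂ} (hΛ : IsCont Λ) {M : ℕ} {D : Set (Fin (k + 1) → ℝ)}
    {G : (Fin (k + 1) → ℂ) → ℂ}
    {g : EuclideanSpace ℝ (Fin (k + 1)) → EuclideanSpace ℝ (Fin (k + 1)) → ℂ}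
    (hB : Base Λ M D G g) {p : Fin (k + 1) → ℝ} (hp : p ∈ D) : ctr p ∈ D :=
  center_mem hB.lar.isOpen hB.lar.convex (fun _ hp => hB.quad hp) (A := (k : ℝ) + 1)
    (fun _ h1 h2 => hB.w1 ⟨h1, h2⟩) (fun _ hp j h0 h1 => hB.refl_mem hΛ hp j h0 h1) hp

theorem Base.up_mem {Λ : ℕ → ℂ → ℂ} {M : ℕ} {D : Set (Fin (k + 1) → ℝ)}
    {G : (Fin (k + 1) → ℂ) → ℂ}
    {g : EuclideanSpace ℝ (Fin (k + 1)) → EuclideanSpace ℝ (Fin (k + 1)) → ℂ}
    (hB : Base Λ M D G g) {p p' : Fin (k + 1) → ℝ} (hp : p ∈ D) (h : ∀ i, p i ≤ p' i) : p' ∈ D := by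
  have h1 := up hB.lar.isOpen hB.lar.convex (fun p hp => hB.quad hp) hp (v := p' - p)
    (fun i => by
      have := h i
      show 0 ≤ p' i - p i
      linarith)
  have h2 : p + (p' - p) = p' := by simp
  rwa [h2] at h1

end Pool.Agent.W5h55.MC
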