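import Pool.Agent.W5h55.BT.Bochner

set_option autoImplicit false
set_option linter.unusedSectionVars false

/-!
# The largest tube domain of a function of polynomial growth
-/

namespace Pool.Agent.W5h55.MC

open MeasureTheory Filter Topology Metric Complex Pool.Agent.W5h55.BT

open scoped FourierTransform RealInnerProductSpace

variable {ι : Type*} [Fintype ι]

theorem Lap_congr {F G : (ι → ℂ) → ℂ} {x : ι → ℝ}
    (h : ∀ y : EuclideanSpace ℝ ι, F (R x + J y) = G (R x + J y)) (k ξ : EuclideanSpace ℝ ι) :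
    Lap F k ξ (R x) = Lap G k ξ (R x) := by
  unfold Lap Phi
  simp only [h]

theorem R_mem {W : Set (ι → ℝ)} {x : ι → ℝ} (hx : x ∈ W) : R x ∈ Tube W := by
  rwa [mem_Tube, re'_R]

/-- The domain of a function is contained in the set of good vectors of its transform. -/
theorem sub_Good {W : Set (ι → ℝ)} {F : (ι → ℂ) → ℂ} (hb : PolyBd W F)
    {g : EuclideanSpace ℝ ι → EuclideanSpace ℝ ι → ℂ}
    (hg : ∀ x ∈ W, ∀ h ξ, Lap F h ξ (R x) = g h ξ) : W ⊆ Good g := by
  intro x hx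
  obtain ⟨C, N, hC, hCN⟩ := norm_Lap_le hb hx
  refine ⟨C, N, hC, fun h ξ => ?_⟩
  rw [← hg x hx h ξ]
  calc ‖Lap F h ξ (R x)‖ * Real.exp (2 * Real.pi * dotr x ξ)
      ≤ (C * (1 + ‖h‖) ^ N * Real.exp (-(2 * Real.pi * dotr x ξ))) *
          Real.exp (2 * Real.pi * dotr x ξ) := by
        gcongr
        exact hCN h ξ
    _ = C * (1 + ‖h‖) ^ N := by
        rw [mul_assoc, ← Real.exp_add]
        simp

/-- Polynomial growth from bounds near every point. -/
theorem polyBd_of_local {W : Set (ι → ℝ)} {G : (ι → ℂ) → ℂ}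
    (h : ∀ x ∈ W, ∃ V ∈ 𝓝 x, ∃ (c : ℝ) (N : ℕ), ∀ z : ι → ℂ,
      (fun j => (z j).re) ∈ V → ‖G z‖ ≤ c * (1 + ‖fun j => (z j).im‖) ^ N) : PolyBd W G := by
  intro K hK hKW
  refine hK.induction_on (p := fun K => ∃ (c : ℝ) (N : ℕ), ∀ z : ι → ℂ,
    (fun j => (z j).re) ∈ K → ‖G z‖ ≤ c * (1 + ‖fun j => (z j).im‖) ^ N) ?_ ?_ ?_ ?_
  · exact ⟨0, 0, fun z hz => absurd hz (Set.notMem_empty _)⟩
  · rintro s t hst ⟨c, N, h⟩
    exact ⟨c, N, fun z hz => h z (hst hz)⟩
  · rintro s t ⟨c1, N1, h1⟩ ⟨c2, N2, h2⟩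
    refine ⟨|c1| + |c2|, max N1 N2, fun z hz => ?_⟩
    have h0 : 1 ≤ 1 + ‖fun j => (z j).im‖ := by
      have := norm_nonneg fun j => (z j).im
      linarith
    rcases hz with hz | hz
    · calc ‖G z‖ ≤ c1 * (1 + ‖fun j => (z j).im‖) ^ N1 := h1 z hz
        _ ≤ (|c1| + |c2|) * (1 + ‖fun j => (z j).im‖) ^ N1 := by
            gcongr
            exact (le_abs_self c1).trans (le_add_of_nonneg_right (abs_nonneg _))
        _ ≤ (|c1| + |c2|) * (1 + ‖fun j => (z j).im‖) ^ max N1 N2 := by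
            gcongr
            exact le_max_left _ _
    · calc ‖G z‖ ≤ c2 * (1 + ‖fun j => (z j).im‖) ^ N2 := h2 z hz
        _ ≤ (|c1| + |c2|) * (1 + ‖fun j => (z j).im‖) ^ N2 := by
            gcongr
            exact (le_abs_self c2).trans (le_add_of_nonneg_left (abs_nonneg _))
        _ ≤ (|c1| + |c2|) * (1 + ‖fun j => (z j).im‖) ^ max N1 N2 := by
            gcongr
            exact le_max_right _ _
  · intro x0 hx0
    obtain ⟨V, hV, c, N, hcN⟩ := h x0 (hKW hx0)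
    exact ⟨V, mem_nhdsWithin_of_mem_nhds hV, c, N, hcN⟩

/-- The extension to an open convex set of good vectors. -/
theorem core {W : Set (ι → ℝ)} (hW : IsOpen W) (hc : IsPreconnected W) {F : (ι → ℂ) → ℂ}
    (hF : DifferentiableOn ℂ F (Tube W)) (hb : PolyBd W F) {w0 : ι → ℝ} (hw0 : w0 ∈ W)
    {g : EuclideanSpace ℝ ι → EuclideanSpace ℝ ι → ℂ} (hg0 : ∀ h ξ, Lap F h ξ (R w0) = g h ξ)
    {H : Set (ι → ℝ)} (hHo : IsOpen H) (hHc : Convex ℝ H) (hWH : W ⊆ H) (hHg : H ⊆ Good g) :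
    ∃ G : (ι → ℂ) → ℂ, DifferentiableOn ℂ G (Tube H) ∧ PolyBd H G ∧ Set.EqOn F G (Tube W) := by
  classical
  have hR0 : R w0 ∈ Tube W := R_mem hw0
  have hgx : ∀ h ξ, ∀ x ∈ W, g h ξ = Lap F h ξ (R x) := fun h ξ x hx => by
    rw [← hg0]
    exact Lap_const hW hc hF hb h ξ hR0 (R_mem hx)
  have hgc : ∀ h, Continuous (g h) := fun h => by
    have h1 := continuous_Lap hW hF hb h hw0
    refine h1.congr fun ξ => hg0 h ξ
  have hdiff : ∀ h, ∀ z ∈ Tube H, DifferentiableAt ℂ (Ext g h) z := fun h z hz =>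
    differentiableAt_Ext hHo hHg hgc h hz
  -- the extension agrees with `F`
  have hagree : ∀ h, ∀ z ∈ Tube W, F z = Ext g h z := by
    intro h z hz
    set x : ι → ℝ := re' z with hx
    set y : EuclideanSpace ℝ ι := WithLp.toLp 2 (im' z) with hy
    have hxW : x ∈ W := hz
    have hzxy : z = R x + J y := eq_R_add_J z
    obtain ⟨δ, C, N, hδ, hC, hsub, hle⟩ := exists_decay hHo hHg (hWH hxW)
    have hFg : ∀ ξ, 𝓕 (slice F h x) ξ = cexp (2 * Real.pi * (dotr x ξ : ℝ)) * g h ξ := by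
      intro ξ
      rw [hgx h ξ x hxW, Lap_eq, ← mul_assoc, ← Complex.exp_add]
      simp
    have hint : Integrable (𝓕 (slice F h x)) := by
      refine Integrable.mono' (((integrable_expL1 (show 0 < 2 * Real.pi * δ by positivity)).const_mul
        (C * (1 + ‖h‖) ^ N))) ?_ (Eventually.of_forall fun ξ => ?_)
      · exact (VectorFourier.fourierIntegral_continuous Real.continuous_fourierChar
          continuous_inner (integrable_slice hW hF hb h hxW)).aestronglyMeasurable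
      · rw [hFg, norm_mul, Complex.norm_exp, mul_comm]
        have e1 : (2 * (Real.pi : ℂ) * (dotr x ξ : ℝ)).re = 2 * Real.pi * dotr x ξ := by
          have : (2 * (Real.pi : ℂ) * (dotr x ξ : ℝ)) = ((2 * Real.pi * dotr x ξ : ℝ) : ℂ) := by
            push_cast
            ring
          rw [this, Complex.ofReal_re]
        rw [e1]
        exact hle h ξ x (mem_closedBall_self hδ.le)
    have hinv := (integrable_slice hW hF hb h hxW).fourierInv_fourier_eq hint
      ((continuous_slice hF h hxW).continuousAt (x := y))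
    rw [Real.fourierInv_eq'] at hinv
    have e2 : (∫ ξ : EuclideanSpace ℝ ι, cexp (((2 * Real.pi * ⟪ξ, y⟫ : ℝ) : ℂ) * I) •
        𝓕 (slice F h x) ξ) = ∫ ξ, g h ξ * cexp (2 * Real.pi * dotc z ξ) := by
      refine integral_congr_ae (Eventually.of_forall fun ξ => ?_)
      simp only
      rw [hFg, smul_eq_mul, hzxy, dotc_eq, real_inner_comm]
      have e3 : cexp (2 * (Real.pi : ℂ) * ((dotr x ξ : ℂ) + ((⟪y, ξ⟫ : ℝ) : ℂ) * I)) =
          cexp (2 * Real.pi * (dotr x ξ : ℝ)) * cexp (((2 * Real.pi * ⟪y, ξ⟫ : ℝ) : ℂ) * I) := by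
        rw [← Complex.exp_add]
        push_cast
        ring_nf
      rw [e3]
      ring
    rw [e2] at hinv
    unfold BT.Ext
    rw [hinv, hzxy]
    unfold slice
    rw [Complex.exp_neg]
    have n1 := Complex.exp_ne_zero (q h (R x + J y))
    field_simp
  have hall : ∀ h, ∀ z ∈ Tube H, Ext g 0 z = Ext g h z := fun h =>
    eqOn_of_eqOn hHo hHc hW hWH hw0 (hdiff 0) (hdiff h)
      fun z hz => (hagree 0 z hz).symm.trans (hagree h z hz)
  refine ⟨Ext g 0, fun z hz => (hdiff 0 z hz).differentiableWithinAt, ?_, fun z hz => hagree 0 z hz⟩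
  -- polynomial growth
  refine polyBd_of_local fun x0 hx0 => ?_
  obtain ⟨δ, C, N, hδ, hC, hsub, hle⟩ := exists_decay hHo hHg hx0
  refine ⟨closedBall x0 δ, closedBall_mem_nhds x0 hδ, ?_⟩
  set T : ℝ := ∫ ξ : EuclideanSpace ℝ ι, Real.exp (-(2 * Real.pi * δ * ∑ j, |ξ j|)) with hT
  have hT0 : 0 ≤ T := integral_nonneg fun y => (Real.exp_pos _).le
  -- compare the Euclidean norm and the sup norm
  set n : ℝ := (Fintype.card ι : ℝ) + 1 with hn
  refine ⟨C * T * n ^ N, N, fun z hz => ?_⟩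
  have hzH : z ∈ Tube H := hsub hz
  set h : EuclideanSpace ℝ ι := WithLp.toLp 2 (im' z) with hh
  have hhn : 1 + ‖h‖ ≤ n * (1 + ‖fun j => (z j).im‖) := by
    have h1 : ‖h‖ ≤ ∑ j, |h j| := norm_le_L1 h
    have h2 : ∑ j, |h j| ≤ ∑ _j : ι, ‖fun j => (z j).im‖ := by
      refine Finset.sum_le_sum fun j _ => ?_
      have := norm_le_pi_norm (fun j => (z j).im) j
      rwa [Real.norm_eq_abs] at this
    rw [Finset.sum_const, Finset.card_univ, nsmul_eq_mul] at h2
    have h3 : 0 ≤ ‖fun j => (z j).im‖ := norm_nonneg _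
    have h4 : (0 : ℝ) ≤ Fintype.card ι := Nat.cast_nonneg _
    rw [hn]
    nlinarith
  rw [hall h z hzH]
  unfold BT.Ext
  rw [norm_mul, Complex.norm_exp]
  have hre : (-(q h z)).re ≤ 0 := by
    rw [Complex.neg_re, re_q]
    have e1 : ∀ j, ((z j).re ^ 2 - ((z j).im - h j) ^ 2) = (z j).re ^ 2 := by
      intro j
      simp [hh, im']
    simp only [e1]
    have := Finset.sum_nonneg (fun j (_ : j ∈ Finset.univ) => sq_nonneg (z j).re)
    linarith
  have h1 : ‖∫ ξ : EuclideanSpace ℝ ι, g h ξ * cexp (2 * Real.pi * dotc z ξ)‖ ≤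
      C * (1 + ‖h‖) ^ N * T := by
    refine (norm_integral_le_integral_norm _).trans ?_
    rw [hT, ← integral_const_mul]
    refine integral_mono_of_nonneg (Eventually.of_forall fun y => norm_nonneg _)
      ((integrable_expL1 (show 0 < 2 * Real.pi * δ by positivity)).const_mul _)
      (Eventually.of_forall fun ξ => ?_)
    simp only
    rw [norm_kernel]
    exact hle h ξ (re' z) hz
  calc Real.exp (-(q h z)).re * ‖∫ ξ : EuclideanSpace ℝ ι, g h ξ * cexp (2 * Real.pi * dotc z ξ)‖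
      ≤ 1 * (C * (1 + ‖h‖) ^ N * T) := by
        gcongr
        exact Real.exp_le_one_iff.2 hre
    _ ≤ 1 * (C * (n * (1 + ‖fun j => (z j).im‖)) ^ N * T) := by gcongr
    _ = C * T * n ^ N * (1 + ‖fun j => (z j).im‖) ^ N := by
        rw [mul_pow]
        ring

/-- `D` is the largest domain of `G`, and `g` is the transform of `G`. -/
structure Largest (D : Set (ι → ℝ)) (G : (ι → ℂ) → ℂ)
    (g : EuclideanSpace ℝ ι → EuclideanSpace ℝ ι → ℂ) : Prop where
  eq : D = interior (Good g)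
  holo : DifferentiableOn ℂ G (Tube D)
  poly : PolyBd D G
  lap : ∀ x ∈ D, ∀ h ξ, Lap G h ξ (R x) = g h ξ

theorem Largest.isOpen {D : Set (ι → ℝ)} {G : (ι → ℂ) → ℂ}
    {g : EuclideanSpace ℝ ι → EuclideanSpace ℝ ι → ℂ} (hD : Largest D G g) : IsOpen D := by
  rw [hD.eq]
  exact isOpen_interior

theorem Largest.convex {D : Set (ι → ℝ)} {G : (ι → ℂ) → ℂ}
    {g : EuclideanSpace ℝ ι → EuclideanSpace ℝ ι → ℂ} (hD : Largest D G g) : Convex ℝ D := by
  rw [hD.eq]
  exact (convex_Good g).interior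

/-- Every extension over a connected open set lives inside `D`. -/
theorem Largest.sub {D : Set (ι → ℝ)} {G : (ι → ℂ) → ℂ}
    {g : EuclideanSpace ℝ ι → EuclideanSpace ℝ ι → ℂ} (hD : Largest D G g)
    {U : Set (ι → ℝ)} (hU : IsOpen U) (hUc : IsPreconnected U) {G' : (ι → ℂ) → ℂ}
    (hG' : DifferentiableOn ℂ G' (Tube U)) (hb' : PolyBd U G') {x : ι → ℝ} (hxU : x ∈ U)
    (hxD : x ∈ D) (hx : ∀ y : EuclideanSpace ℝ ι, G' (R x + J y) = G (R x + J y)) : U ⊆ D := by
  rw [hD.eq]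
  refine interior_maximal (sub_Good hb' fun x' hx' h ξ => ?_) hU
  rw [Lap_const hU hUc hG' hb' h ξ (R_mem hx') (R_mem hxU), Lap_congr hx, hD.lap x hxD]

/-- The largest domain exists. -/
theorem exists_largest {W : Set (ι → ℝ)} (hW : IsOpen W) (hc : IsPreconnected W)
    {F : (ι → ℂ) → ℂ} (hF : DifferentiableOn ℂ F (Tube W)) (hb : PolyBd W F) {w0 : ι → ℝ}
    (hw0 : w0 ∈ W) : ∃ (D : Set (ι → ℝ)) (G : (ι → ℂ) → ℂ)
      (g : EuclideanSpace ℝ ι → EuclideanSpace ℝ ι → ℂ), Largest D G g ∧ W ⊆ D ∧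
      Set.EqOn F G (Tube W) := by
  set g : EuclideanSpace ℝ ι → EuclideanSpace ℝ ι → ℂ := fun h ξ => Lap F h ξ (R w0) with hg
  have hgx : ∀ x ∈ W, ∀ h ξ, Lap F h ξ (R x) = g h ξ := fun x hx h ξ =>
    Lap_const hW hc hF hb h ξ (R_mem hx) (R_mem hw0)
  have hWD : W ⊆ interior (Good g) := interior_maximal (sub_Good hb hgx) hW
  have hDc : Convex ℝ (interior (Good g)) := (convex_Good g).interior
  obtain ⟨G, hG, hGb, hFG⟩ := core hW hc hF hb hw0 (g := g) (fun h ξ => rfl) isOpen_interior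
    hDc hWD interior_subset
  refine ⟨interior (Good g), G, g, ⟨rfl, hG, hGb, fun x hx h ξ => ?_⟩, hWD, hFG⟩
  rw [Lap_const isOpen_interior hDc.isPreconnected hG hGb h ξ (R_mem hx) (R_mem (hWD hw0))]
  rw [← hgx w0 hw0 h ξ]
  refine Lap_congr (fun y => (hFG ?_).symm) h ξ
  exact add_J_mem (R_mem hw0) y

end Pool.Agent.W5h55.MC
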