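import Pool.Agent.W5h55.MC.LF
import Pool.Agent.W5h55.MC.Geo
import Pool.Agent.W5h55.MC.Max

set_option autoImplicit false
set_option linter.unusedSectionVars false

/-!
# The series on the region of absolute convergence, and its functional equations
-/

namespace Pool.Agent.W5h55.MC

open Finset Filter Topology Complex Pool.Agent.W5h65.MD Pool.Agent.W5h55.BT

/-- `Λ d` is the continuation of `L(s, χ_d)`. -/
def IsCont (Λ : ℕ → ℂ → ℂ) : Prop := ∀ d : ℕ, IsFund d → 1 < d →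
  Differentiable ℂ (Λ d) ∧ ∀ s : ℂ, 1 < s.re → Λ d s = LL d s

theorem exists_cont : ∃ Λ : ℕ → ℂ → ℂ, IsCont Λ := by
  classical
  choose! Λ h using fun (d : ℕ) (hd : IsFund d ∧ 1 < d) => exists_L hd.1 hd.2
  exact ⟨Λ, fun d hd h1 => ⟨(h d ⟨hd, h1⟩).1, (h d ⟨hd, h1⟩).2.1⟩⟩

theorem IsCont.prop {Λ : ℕ → ℂ → ℂ} (h : IsCont Λ) {d : ℕ} (hd : IsFund d) (h1 : 1 < d) :
    (∀ s : ℂ, 0 < s.re → ‖Λ d s‖ ≤ ‖s‖ * ((d + 1) / s.re)) ∧
    (∀ s : ℂ, 0 < s.re → s.re < 1 → Λ d s = (d : ℂ) ^ (1 / 2 - s) * XX s * Λ d (1 - s)) := by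
  obtain ⟨Λ', h2, h3, h4, h5⟩ := exists_L hd h1
  obtain ⟨h6, h7⟩ := h d hd h1
  have hopen : IsOpen {s : ℂ | 1 < s.re} := isOpen_lt continuous_const continuous_re
  have heq : Λ d = Λ' := by
    have a1 : AnalyticOnNhd ℂ (Λ d) Set.univ := h6.differentiableOn.analyticOnNhd isOpen_univ
    have a2 : AnalyticOnNhd ℂ Λ' Set.univ := h2.differentiableOn.analyticOnNhd isOpen_univ
    refine a1.eq_of_eventuallyEq a2 (z₀ := 2) ?_
    have h8 : {s : ℂ | 1 < s.re} ∈ 𝓝 (2 : ℂ) := hopen.mem_nhds (by norm_num)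
    filter_upwards [h8] with s hs
    rw [h7 s hs, h3 s hs]
  rw [heq]
  exact ⟨h4, fun s hs0 hs1 => fe_solved hs0 hs1 (h5 s hs0 hs1)⟩

variable {k : ℕ}

/-- The terms of the series. -/
noncomputable def tm (Λ : ℕ → ℂ → ℂ) (M : ℕ) (z : Fin (k + 1) → ℂ) (d : ℕ) : ℂ :=
  open Classical in
  if IsFund d ∧ 1 < d then ((kr d M : ℤ) : ℂ) * (d : ℂ) ^ (-z 0) * ∏ j : Fin k, Λ d (z j.succ) else 0

/-- The product of the polar factors. -/
noncomputable def PP (z : Fin (k + 1) → ℂ) : ℂ :=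
  ∏ K : Finset (Fin k), (z 0 - (K.card : ℂ) / 2 + ∑ j ∈ K, z j.succ - 1)

/-- The function `F_M`, given by a series. -/
noncomputable def FX (Λ : ℕ → ℂ → ℂ) (M : ℕ) (z : Fin (k + 1) → ℂ) : ℂ :=
  (∑' d, tm Λ M z d) * PP z

theorem PP_refl (j : Fin k) (z : Fin (k + 1) → ℂ) : PP (refl j z) = PP z := by
  classical
  unfold PP
  have hinv : Function.Involutive (fun K : Finset (Fin k) =>
      if j ∈ K then K.erase j else insert j K) := by
    intro K
    by_cases h : j ∈ K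
    · simp [h, insert_erase]
    · simp [h]
  rw [← Equiv.prod_comp hinv.toPerm]
  refine prod_congr rfl fun K _ => ?_
  rw [Function.Involutive.coe_toPerm]
  have hz0 : refl j z 0 = z 0 + z j.succ - 1 / 2 := by simp [refl]
  have hzi : ∀ i, refl j z i.succ = if i = j then 1 - z j.succ else z i.succ := by
    intro i
    simp [refl]
  by_cases h : j ∈ K
  · simp only [if_pos h]
    have h1 : ∑ i ∈ K.erase j, refl j z i.succ = ∑ i ∈ K.erase j, z i.succ := by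
      refine sum_congr rfl fun i hi => ?_
      rw [hzi, if_neg (ne_of_mem_erase hi)]
    have h2 : ∑ i ∈ K, z i.succ = z j.succ + ∑ i ∈ K.erase j, z i.succ :=
      (add_sum_erase K (fun i => z i.succ) h).symm
    have h3 : ((K.erase j).card : ℂ) = K.card - 1 := by
      rw [card_erase_of_mem h]
      have : 1 ≤ K.card := card_pos.2 ⟨j, h⟩
      push_cast [Nat.cast_sub this]
      ring
    rw [hz0, h1, h2, h3]
    ring
  · simp only [if_neg h]
    have h1 : ∑ i ∈ insert j K, refl j z i.succ = 1 - z j.succ + ∑ i ∈ K, z i.succ := by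
      rw [sum_insert h, hzi, if_pos rfl]
      congr 1
      refine sum_congr rfl fun i hi => ?_
      rw [hzi, if_neg (by rintro rfl; exact h hi)]
    have h3 : ((insert j K).card : ℂ) = K.card + 1 := by
      rw [card_insert_of_notMem h]
      push_cast
      ring
    rw [hz0, h1, h3]
    ring

theorem tm_refl {Λ : ℕ → ℂ → ℂ} (hΛ : IsCont Λ) (M : ℕ) (j : Fin k) {z : Fin (k + 1) → ℂ}
    (h0 : 0 < (z j.succ).re) (h1 : (z j.succ).re < 1) (d : ℕ) :
    tm Λ M z d = XX (z j.succ) * tm Λ M (refl j z) d := by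
  classical
  unfold tm
  by_cases hd : IsFund d ∧ 1 < d
  · rw [if_pos hd, if_pos hd]
    have hdc : (d : ℂ) ≠ 0 := by
      have := hd.2
      exact_mod_cast (by omega : d ≠ 0)
    have hz0 : refl j z 0 = z 0 + z j.succ - 1 / 2 := by simp [refl]
    have hzi : ∀ i, refl j z i.succ = if i = j then 1 - z j.succ else z i.succ := by
      intro i
      simp [refl]
    have e1 : ∏ i : Fin k, Λ d (z i.succ) =
        Λ d (z j.succ) * ∏ i ∈ univ.erase j, Λ d (z i.succ) :=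
      (mul_prod_erase univ (fun i => Λ d (z i.succ)) (mem_univ j)).symm
    have e2 : ∏ i : Fin k, Λ d (refl j z i.succ) =
        Λ d (1 - z j.succ) * ∏ i ∈ univ.erase j, Λ d (z i.succ) := by
      rw [← mul_prod_erase univ (fun i => Λ d (refl j z i.succ)) (mem_univ j), hzi, if_pos rfl]
      congr 1
      refine prod_congr rfl fun i hi => ?_
      rw [hzi, if_neg (ne_of_mem_erase hi)]
    have e3 : (d : ℂ) ^ (-(z 0 + z j.succ - 1 / 2)) = (d : ℂ) ^ (-z 0) * (d : ℂ) ^ (1 / 2 - z j.succ) := by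
      rw [← Complex.cpow_add _ _ hdc]
      congr 1
      ring
    rw [e1, e2, hz0, e3, (hΛ.prop hd.1 hd.2).2 _ h0 h1]
    ring
  · rw [if_neg hd, if_neg hd, mul_zero]

theorem FX_refl {Λ : ℕ → ℂ → ℂ} (hΛ : IsCont Λ) (M : ℕ) (j : Fin k) {z : Fin (k + 1) → ℂ}
    (h0 : 0 < (z j.succ).re) (h1 : (z j.succ).re < 1) :
    FX Λ M z = XX (z j.succ) * FX Λ M (refl j z) := by
  unfold FX
  rw [PP_refl, tsum_congr (tm_refl hΛ M j h0 h1), tsum_mul_left]
  ring

/-- The region of absolute convergence. -/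
def QQ (k : ℕ) : Set (Fin (k + 1) → ℝ) := {x | ∀ i, 1 < x i}

/-- A region where the series with the continued functions converges absolutely. -/
def W1 (k : ℕ) : Set (Fin (k + 1) → ℝ) := {x | (∀ j : Fin k, 0 < x j.succ) ∧ (k : ℝ) + 1 < x 0}

/-- Local domination. -/
def LB (Λ : ℕ → ℂ → ℂ) (M : ℕ) (U : Set (Fin (k + 1) → ℝ)) : Prop :=
  ∀ x0 ∈ U, ∃ V : Set (Fin (k + 1) → ℝ), IsOpen V ∧ x0 ∈ V ∧ V ⊆ U ∧ ∃ (u : ℕ → ℝ) (N : ℕ),
    Summable u ∧ ∀ (d : ℕ) (z : Fin (k + 1) → ℂ), re' z ∈ V →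
      ‖tm Λ M z d‖ ≤ u d * (1 + ‖im' z‖) ^ N

theorem norm_im'_le {ι : Type*} [Fintype ι] (z : ι → ℂ) : ‖im' z‖ ≤ ‖z‖ := by
  refine (pi_norm_le_iff_of_nonneg (norm_nonneg _)).2 fun j => ?_
  rw [Real.norm_eq_abs]
  exact (Complex.abs_im_le_norm _).trans (norm_le_pi_norm z j)

theorem tm_diff {Λ : ℕ → ℂ → ℂ} (hΛ : IsCont Λ) (M : ℕ) (d : ℕ) :
    Differentiable ℂ (fun z : Fin (k + 1) → ℂ => tm Λ M z d) := by
  classical
  unfold tm
  by_cases hd : IsFund d ∧ 1 < d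
  · simp only [if_pos hd]
    have hdc : (d : ℂ) ≠ 0 := by
      have := hd.2
      exact_mod_cast (by omega : d ≠ 0)
    refine Differentiable.mul (Differentiable.mul (differentiable_const _) ?_) ?_
    · intro z
      exact DifferentiableAt.const_cpow (by fun_prop) (Or.inl hdc)
    · have h1 : ∀ j : Fin k, Differentiable ℂ (fun z : Fin (k + 1) → ℂ => Λ d (z j.succ)) :=
        fun j => (hΛ d hd.1 hd.2).1.comp (differentiable_apply j.succ)
      intro z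
      exact (HasFDerivAt.finsetProd (u := univ)
        (g := fun (j : Fin k) (z : Fin (k + 1) → ℂ) => Λ d (z j.succ))
        fun j _ => (h1 j z).hasFDerivAt).differentiableAt
  · simp only [if_neg hd]
    exact differentiable_const _

theorem PP_diff : Differentiable ℂ (PP : (Fin (k + 1) → ℂ) → ℂ) := by
  unfold PP
  have h1 : ∀ K : Finset (Fin k), Differentiable ℂ (fun z : Fin (k + 1) → ℂ =>
      z 0 - (K.card : ℂ) / 2 + ∑ j ∈ K, z j.succ - 1) := by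
    intro K
    fun_prop
  intro z
  exact (HasFDerivAt.finsetProd (u := univ)
    (g := fun (K : Finset (Fin k)) (z : Fin (k + 1) → ℂ) =>
      z 0 - (K.card : ℂ) / 2 + ∑ j ∈ K, z j.succ - 1)
    fun K _ => (h1 K z).hasFDerivAt).differentiableAt

theorem LB.holo {Λ : ℕ → ℂ → ℂ} (hΛ : IsCont Λ) {M : ℕ} {U : Set (Fin (k + 1) → ℝ)}
    (h : LB Λ M U) : DifferentiableOn ℂ (FX Λ M) (Tube U) := by
  unfold FX
  refine DifferentiableOn.mul ?_ PP_diff.differentiableOn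
  refine holo_tsum' (F := fun (d : ℕ) (z : Fin (k + 1) → ℂ) => tm Λ M z d)
    (fun d => (tm_diff hΛ M d).differentiableOn) fun z hz => ?_
  obtain ⟨V, hV, hzV, hVU, u, N, hu, hb⟩ := h (re' z) hz
  refine ⟨Tube V ∩ Metric.ball 0 (‖z‖ + 1), fun z' hz' => hVU hz'.1,
    (isOpen_Tube hV).inter Metric.isOpen_ball, ⟨hzV, by simp⟩,
    fun d => u d * (1 + (‖z‖ + 1)) ^ N, hu.mul_right _, fun d z' hz' => ?_⟩
  have h0 : 0 ≤ u d := by
    have h1 := (norm_nonneg _).trans (hb d z hzV)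
    have h2 : 0 < (1 + ‖im' z‖) ^ N := by positivity
    exact nonneg_of_mul_nonneg_left h1 h2
  refine (hb d z' hz'.1).trans ?_
  have h3 : ‖im' z'‖ ≤ ‖z‖ + 1 := by
    have := hz'.2
    rw [mem_ball_zero_iff] at this
    exact (norm_im'_le z').trans this.le
  show u d * (1 + ‖im' z'‖) ^ N ≤ u d * (1 + (‖z‖ + 1)) ^ N
  refine mul_le_mul_of_nonneg_left (pow_le_pow_left₀ (by positivity) (by linarith) _) h0

theorem PP_norm (z : Fin (k + 1) → ℂ) :
    ‖PP z‖ ≤ ((k : ℝ) + 3) ^ (2 ^ k) * (1 + ‖z‖) ^ (2 ^ k) := by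
  unfold PP
  rw [norm_prod, ← mul_pow]
  have h1 : ∀ K : Finset (Fin k), ‖z 0 - (K.card : ℂ) / 2 + ∑ j ∈ K, z j.succ - 1‖ ≤
      ((k : ℝ) + 3) * (1 + ‖z‖) := by
    intro K
    have h2 : ‖z 0‖ ≤ ‖z‖ := norm_le_pi_norm z 0
    have hK : (K.card : ℝ) ≤ k := by
      have := card_le_univ K
      rw [Fintype.card_fin] at this
      exact_mod_cast this
    have h3 : ‖((K.card : ℂ) / 2)‖ ≤ k := by
      rw [norm_div, Complex.norm_natCast]
      have : ‖(2 : ℂ)‖ = 2 := by simp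
      rw [this]
      have : (0 : ℝ) ≤ K.card := Nat.cast_nonneg _
      linarith
    have h4 : ‖∑ j ∈ K, z j.succ‖ ≤ k * ‖z‖ := by
      refine (norm_sum_le _ _).trans ((sum_le_sum fun j _ => norm_le_pi_norm z j.succ).trans ?_)
      rw [sum_const, nsmul_eq_mul]
      gcongr
    have h5 : ‖z 0 - (K.card : ℂ) / 2 + ∑ j ∈ K, z j.succ - 1‖ ≤
        ‖z 0‖ + ‖((K.card : ℂ) / 2)‖ + ‖∑ j ∈ K, z j.succ‖ + ‖(1 : ℂ)‖ :=
      (norm_sub_le _ _).trans (add_le_add ((norm_add_le _ _).trans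
        (add_le_add (norm_sub_le _ _) le_rfl)) le_rfl)
    rw [norm_one] at h5
    have h6 := norm_nonneg z
    have h7 : (0 : ℝ) ≤ k := Nat.cast_nonneg k
    nlinarith [mul_nonneg h7 h6]
  calc ∏ K : Finset (Fin k), ‖z 0 - (K.card : ℂ) / 2 + ∑ j ∈ K, z j.succ - 1‖
      ≤ ∏ _K : Finset (Fin k), (((k : ℝ) + 3) * (1 + ‖z‖)) :=
        prod_le_prod (fun _ _ => norm_nonneg _) fun K _ => h1 K
    _ = _ := by
        rw [prod_const, card_univ, Fintype.card_finset, Fintype.card_fin]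

theorem norm_le_re_im {ι : Type*} [Fintype ι] (z : ι → ℂ) : ‖z‖ ≤ ‖re' z‖ + ‖im' z‖ := by
  refine (pi_norm_le_iff_of_nonneg (by positivity)).2 fun j => ?_
  have h1 := Complex.norm_le_abs_re_add_abs_im (z j)
  have h2 := norm_le_pi_norm (re' z) j
  have h3 := norm_le_pi_norm (im' z) j
  rw [Real.norm_eq_abs] at h2 h3
  exact h1.trans (add_le_add h2 h3)

theorem LB.poly {Λ : ℕ → ℂ → ℂ} {M : ℕ} {U : Set (Fin (k + 1) → ℝ)}
    (h : LB Λ M U) : PolyBd U (FX Λ M) := by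
  refine polyBd_of_local fun x0 hx0 => ?_
  obtain ⟨V, hV, hxV, hVU, u, N, hu, hb⟩ := h x0 hx0
  refine ⟨V ∩ Metric.ball x0 1, inter_mem (hV.mem_nhds hxV) (Metric.ball_mem_nhds x0 one_pos),
    (∑' d, u d) * (((k : ℝ) + 3) ^ (2 ^ k) * (1 + (‖x0‖ + 1)) ^ (2 ^ k)), N + 2 ^ k,
    fun z hz => ?_⟩
  have hzV : re' z ∈ V := hz.1
  have hzb : ‖re' z - x0‖ < 1 := by
    have := hz.2
    rwa [Metric.mem_ball, dist_eq_norm] at this
  have h0 : ∀ d, 0 ≤ u d := by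
    intro d
    have h1 := (norm_nonneg _).trans (hb d z hzV)
    have h2 : 0 < (1 + ‖im' z‖) ^ N := by positivity
    exact nonneg_of_mul_nonneg_left h1 h2
  have h1 : ‖∑' d, tm Λ M z d‖ ≤ (∑' d, u d) * (1 + ‖im' z‖) ^ N := by
    rw [← tsum_mul_right]
    exact tsum_of_norm_bounded (hu.mul_right _).hasSum fun d => hb d z hzV
  have h2 : ‖PP z‖ ≤ ((k : ℝ) + 3) ^ (2 ^ k) * ((1 + (‖x0‖ + 1)) ^ (2 ^ k) *
      (1 + ‖im' z‖) ^ (2 ^ k)) := by
    refine (PP_norm z).trans ?_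
    gcongr
    rw [← mul_pow]
    refine pow_le_pow_left₀ (by positivity) ?_ _
    have h3 := norm_le_re_im z
    have h4 : ‖re' z‖ ≤ ‖x0‖ + 1 := by
      have h5 : ‖re' z‖ ≤ ‖re' z - x0‖ + ‖x0‖ := by
        calc ‖re' z‖ = ‖(re' z - x0) + x0‖ := by simp
          _ ≤ _ := norm_add_le _ _
      linarith
    have h6 := norm_nonneg (im' z)
    have h7 := norm_nonneg x0
    nlinarith [mul_nonneg (add_nonneg h7 one_pos.le) h6]
  have hS : 0 ≤ ∑' d, u d := tsum_nonneg h0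
  unfold FX
  rw [norm_mul]
  calc ‖∑' d, tm Λ M z d‖ * ‖PP z‖ ≤ ((∑' d, u d) * (1 + ‖im' z‖) ^ N) *
        (((k : ℝ) + 3) ^ (2 ^ k) * ((1 + (‖x0‖ + 1)) ^ (2 ^ k) * (1 + ‖im' z‖) ^ (2 ^ k))) :=
        mul_le_mul h1 h2 (norm_nonneg _) (by positivity)
    _ = (∑' d, u d) * (((k : ℝ) + 3) ^ (2 ^ k) * (1 + (‖x0‖ + 1)) ^ (2 ^ k)) *
        ((1 + ‖im' z‖) ^ N * (1 + ‖im' z‖) ^ (2 ^ k)) := by ring
    _ = _ := by
        rw [← pow_add]
        rfl

end Pool.Agent.W5h55.MC
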