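import Pool.Agent.W5h55.MC.Ser

set_option autoImplicit false
set_option linter.unusedSectionVars false

/-!
# The series on two regions of absolute convergence
-/

namespace Pool.Agent.W5h55.MC

open Finset Filter Topology Complex Pool.Agent.W5h65.MD Pool.Agent.W5h55.BT

variable {k : ℕ}

theorem exists_gap {n : ℕ} (a x : Fin n → ℝ) (h : ∀ i, a i < x i) :
    ∃ δ > 0, ∀ i, a i + δ < x i := by
  have h1 : ∀ᶠ δ : ℝ in 𝓝[>] 0, ∀ i, a i + δ < x i := by
    rw [eventually_all]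
    intro i
    have : ∀ᶠ δ : ℝ in 𝓝[>] 0, δ < x i - a i :=
      (eventually_lt_nhds (by linarith [h i])).filter_mono nhdsWithin_le_nhds
    filter_upwards [this] with δ hδ
    linarith
  obtain ⟨δ, h2, h3⟩ := (h1.and self_mem_nhdsWithin).exists
  exact ⟨δ, h3, h2⟩

theorem isOpen_gt' {n : ℕ} (a : Fin n → ℝ) : IsOpen {x : Fin n → ℝ | ∀ i, a i < x i} := by
  simp only [Set.setOf_forall]
  exact isOpen_iInter_of_finite fun i => isOpen_lt continuous_const (continuous_apply i)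

theorem convex_gt' {n : ℕ} (a : Fin n → ℝ) : Convex ℝ {x : Fin n → ℝ | ∀ i, a i < x i} := by
  rintro x hx y hy b c hb hc hbc i
  have h1 := hx i
  have h2 := hy i
  show a i < b * x i + c * y i
  rcases hb.eq_or_lt with h | h
  · have h' : c = 1 := by linarith
    rw [← h, h']
    linarith
  · have e1 := mul_lt_mul_of_pos_left h1 h
    have e2 := mul_le_mul_of_nonneg_left h2.le hc
    have e3 : a i = b * a i + c * a i := by
      rw [← add_mul, hbc, one_mul]
    linarith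

/-- The lower corner of `W1`. -/
def w1c (k : ℕ) : Fin (k + 1) → ℝ := Fin.cons ((k : ℝ) + 1) (fun _ => 0)

theorem W1_eq (k : ℕ) : W1 k = {x | ∀ i, w1c k i < x i} := by
  ext x
  constructor
  · rintro ⟨h1, h2⟩ i
    refine Fin.cases ?_ (fun j => ?_) i
    · simpa [w1c] using h2
    · simpa [w1c] using h1 j
  · intro h
    refine ⟨fun j => ?_, ?_⟩
    · simpa [w1c] using h j.succ
    · simpa [w1c] using h 0

theorem isOpen_W1 (k : ℕ) : IsOpen (W1 k) := by
  rw [W1_eq]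
  exact isOpen_gt' _

theorem convex_W1 (k : ℕ) : Convex ℝ (W1 k) := by
  rw [W1_eq]
  exact convex_gt' _

theorem isOpen_QQ (k : ℕ) : IsOpen (QQ k) := isOpen_gt' _

theorem convex_QQ (k : ℕ) : Convex ℝ (QQ k) := convex_gt' _

theorem tm_norm_le {Λ : ℕ → ℂ → ℂ} {M d : ℕ} {z : Fin (k + 1) → ℂ} {a B : ℝ}
    (ha : a ≤ (z 0).re) (hB : ∀ j : Fin k, IsFund d → 1 < d → ‖Λ d (z j.succ)‖ ≤ B) (hB0 : 0 ≤ B) :
    ‖tm Λ M z d‖ ≤ (d : ℝ) ^ (-a) * B ^ k := by
  classical
  unfold tm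
  by_cases hd : IsFund d ∧ 1 < d
  · rw [if_pos hd, norm_mul, norm_mul]
    have h1 : ‖(d : ℂ) ^ (-z 0)‖ ≤ (d : ℝ) ^ (-a) := by
      rw [nat_cpow_norm hd.2.le]
      exact Real.rpow_le_rpow_of_exponent_le (by exact_mod_cast hd.2.le) (by linarith)
    have h2 : ‖∏ j : Fin k, Λ d (z j.succ)‖ ≤ B ^ k := by
      rw [norm_prod]
      calc ∏ j : Fin k, ‖Λ d (z j.succ)‖ ≤ ∏ _j : Fin k, B :=
            prod_le_prod (fun _ _ => norm_nonneg _) fun j _ => hB j hd.1 hd.2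
        _ = B ^ k := by simp
    have h3 : ‖((kr d M : ℤ) : ℂ)‖ * ‖(d : ℂ) ^ (-z 0)‖ ≤ (d : ℝ) ^ (-a) := by
      refine (mul_le_mul (kr_norm d M) h1 (norm_nonneg _) zero_le_one).trans ?_
      rw [one_mul]
    exact mul_le_mul h3 h2 (norm_nonneg _) (by positivity)
  · rw [if_neg hd, norm_zero]
    positivity

theorem LB_QQ {Λ : ℕ → ℂ → ℂ} (hΛ : IsCont Λ) (M : ℕ) : LB Λ M (QQ k) := by
  intro x0 hx0
  obtain ⟨δ, hδ, h1⟩ := exists_gap (fun _ => (1 : ℝ)) x0 hx0
  refine ⟨{x | ∀ i, 1 + δ < x i}, isOpen_gt' _, h1, fun x hx i => ?_,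
    fun d => (d : ℝ) ^ (-(1 + δ)) * (∑' n : ℕ, (n : ℝ) ^ (-(1 + δ))) ^ k, 0,
    (summ_rpow (by linarith)).mul_right _, fun d z hz => ?_⟩
  · have h2 : 1 + δ < x i := hx i
    linarith
  · rw [pow_zero, mul_one]
    have hz' : ∀ i, 1 + δ < (z i).re := hz
    refine tm_norm_le (hz' 0).le (fun j hd1 hd2 => ?_) (tsum_nonneg fun _ => by positivity)
    rw [(hΛ d hd1 hd2).2 _ (by linarith [hz' j.succ])]
    exact LL_norm d (by linarith) (hz' j.succ).le

theorem LB_W1 {Λ : ℕ → ℂ → ℂ} (hΛ : IsCont Λ) (M : ℕ) : LB Λ M (W1 k) := by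
  intro x0 hx0
  rw [W1_eq] at hx0
  obtain ⟨δ, hδ, h1⟩ := exists_gap (w1c k) x0 hx0
  set B : ℝ := 2 * (‖x0‖ + 2) / δ with hB
  have hB0 : 0 ≤ B := by positivity
  refine ⟨{x | ∀ i, w1c k i + δ < x i} ∩ Metric.ball x0 1, (isOpen_gt' _).inter Metric.isOpen_ball,
    ⟨h1, Metric.mem_ball_self one_pos⟩, fun x hx => ?_,
    fun d => (d : ℝ) ^ (-(1 + δ)) * B ^ k, k,
    (summ_rpow (by linarith)).mul_right _, fun d z hz => ?_⟩
  · rw [W1_eq]
    intro i
    have := hx.1 i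
    linarith
  · have hz1 : ∀ i, w1c k i + δ < (z i).re := hz.1
    have hz0 : (k : ℝ) + 1 + δ < (z 0).re := by simpa [w1c] using hz1 0
    have hzj : ∀ j : Fin k, δ < (z j.succ).re := fun j => by simpa [w1c] using hz1 j.succ
    have hzb : ‖re' z - x0‖ < 1 := by
      have := hz.2
      rwa [Metric.mem_ball, dist_eq_norm] at this
    rcases Nat.lt_or_ge d 1 with hd0 | hd0
    · have : tm Λ M z d = 0 := by
        classical
        unfold tm
        rw [if_neg (fun h => by omega)]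
      rw [this, norm_zero]
      positivity
    have hd0' : (1 : ℝ) ≤ d := by exact_mod_cast hd0
    have hT : 0 ≤ ‖im' z‖ := norm_nonneg _
    have h2 := tm_norm_le (Λ := Λ) (M := M) (d := d) (z := z) (a := (k : ℝ) + 1 + δ)
      (B := B * d * (1 + ‖im' z‖)) hz0.le (fun j hd1 hd2 => ?_) (by positivity)
    · refine h2.trans (le_of_eq ?_)
      rw [mul_pow, mul_pow]
      have h3 : (d : ℝ) ^ (-((k : ℝ) + 1 + δ)) * (d : ℝ) ^ k = (d : ℝ) ^ (-(1 + δ)) := by
        rw [← Real.rpow_natCast, ← Real.rpow_add (by linarith)]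
        congr 1
        ring
      calc (d : ℝ) ^ (-((k : ℝ) + 1 + δ)) * (B ^ k * (d : ℝ) ^ k * (1 + ‖im' z‖) ^ k)
          = ((d : ℝ) ^ (-((k : ℝ) + 1 + δ)) * (d : ℝ) ^ k) * B ^ k * (1 + ‖im' z‖) ^ k := by ring
        _ = _ := by rw [h3]
    · refine ((hΛ.prop hd1 hd2).1 _ (hδ.trans (hzj j))).trans ?_
      have h3 : ‖z j.succ‖ ≤ (‖x0‖ + 2) * (1 + ‖im' z‖) := by
        have h4 := (norm_le_pi_norm z j.succ).trans (norm_le_re_im z)
        have h5 : ‖re' z‖ ≤ ‖re' z - x0‖ + ‖x0‖ := by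
          calc ‖re' z‖ = ‖(re' z - x0) + x0‖ := by simp
            _ ≤ _ := norm_add_le _ _
        have h6 := norm_nonneg x0
        nlinarith [mul_nonneg h6 hT]
      have h4 : ((d : ℝ) + 1) / (z j.succ).re ≤ 2 * d / δ := by
        refine div_le_div₀ (by positivity) (by linarith) hδ (hzj j).le
      calc ‖z j.succ‖ * (((d : ℝ) + 1) / (z j.succ).re)
          ≤ ((‖x0‖ + 2) * (1 + ‖im' z‖)) * (2 * d / δ) := by
            refine mul_le_mul h3 h4 ?_ (by positivity)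
            have := (hδ.trans (hzj j)).le
            positivity
        _ = B * d * (1 + ‖im' z‖) := by
            rw [hB]
            ring

/-- The function `F_M` on the region of absolute convergence of the original series. -/
theorem FX_eq_FM {Λ : ℕ → ℂ → ℂ} (hΛ : IsCont Λ) (M : ℕ) {z : Fin (k + 1) → ℂ}
    (hz : ∀ i, 1 < (z i).re) : FX Λ M z = FM M ((fun j : Fin k => z j.succ), z 0) := by
  classical
  unfold FX FM
  congr 1
  simp only
  rw [AM_eq M _ (fun j => hz j.succ) (hz 0)]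
  refine tsum_congr fun d => ?_
  unfold tm gd
  by_cases hd : IsFund d ∧ 1 < d
  · rw [if_pos hd, if_pos hd]
    congr 1
    refine prod_congr rfl fun j _ => ?_
    rw [Ld_eq d (hz j.succ), (hΛ d hd.1 hd.2).2 _ (hz j.succ)]
  · rw [if_neg hd, if_neg hd]

end Pool.Agent.W5h55.MC
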